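import Mathlib

/-!
MP_0430e4_lc (helper384): containers for the independent sets of a graph, and random subsets.
-/

set_option autoImplicit false

namespace Pool.Agent.H384.CC

open Finset

section cont

variable {X : Type} [DecidableEq X]

/-- containers -/
theorem containers (adj : X → X → Prop) [DecidableRel adj] (hirr : ∀ v, ¬ adj v v)
    (β N₀ : ℝ) (hβ0 : 0 < β) (hβ1 : β ≤ 1) (hN0 : 0 < N₀)
    (hdeg : ∀ A : Finset X, N₀ ≤ A.card → ∃ v ∈ A, β * A.card ≤ ((A.filter (adj v)).card : ℝ)) :
    ∀ (a : ℕ) (A : Finset X), A.card = a → ∀ τ : ℕ, (A.card : ℝ) * (1 - β) ^ τ < N₀ →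
      ∃ K : Finset (Finset X), K.card ≤ (a + 1) ^ τ ∧ (∀ B ∈ K, (B.card : ℝ) ≤ N₀ + τ) ∧
        ∀ I ⊆ A, (∀ x ∈ I, ∀ y ∈ I, ¬ adj x y) → ∃ B ∈ K, I ⊆ B := by
  intro a
  induction a using Nat.strong_induction_on with
  | _ a ih =>
    intro A hA τ hτ
    by_cases hsmall : (A.card : ℝ) < N₀
    · refine ⟨{A}, ?_, ?_, ?_⟩
      · rw [Finset.card_singleton]
        exact Nat.one_le_pow _ _ (by omega)
      · intro B hB
        rw [Finset.mem_singleton] at hB
        subst hB
        have : (0 : ℝ) ≤ τ := Nat.cast_nonneg _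
        linarith
      · intro I hI _
        exact ⟨A, Finset.mem_singleton_self _, hI⟩
    · push Not at hsmall
      have hτ1 : 1 ≤ τ := by
        by_contra hcon
        have : τ = 0 := by omega
        subst this
        rw [pow_zero, mul_one] at hτ
        linarith
      obtain ⟨σ, rfl⟩ : ∃ σ, τ = σ + 1 := ⟨τ - 1, by omega⟩
      obtain ⟨v, hv, hdv⟩ := hdeg A hsmall
      have hβ' : 0 ≤ 1 - β := by linarith
      -- the two smaller sets
      have hA1 : (A.filter fun u => ¬ adj v u ∧ u ≠ v).card + 1 + (A.filter (adj v)).card =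
          A.card := by
        have h1 : (A.filter fun u => ¬ adj v u ∧ u ≠ v) = (A.filter fun u => ¬ adj v u).erase v := by
          ext u
          simp only [Finset.mem_filter, Finset.mem_erase]
          tauto
        have h2 : v ∈ A.filter fun u => ¬ adj v u := Finset.mem_filter.2 ⟨hv, hirr v⟩
        rw [h1, Finset.card_erase_add_one h2, add_comm]
        exact Finset.card_filter_add_card_filter_not (s := A) (adj v)
      have hA1' : ((A.filter fun u => ¬ adj v u ∧ u ≠ v).card : ℝ) ≤ (1 - β) * A.card := by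
        have : ((A.filter fun u => ¬ adj v u ∧ u ≠ v).card : ℝ) + 1 +
          ((A.filter (adj v)).card : ℝ) = A.card := by exact_mod_cast hA1
        linarith
      have hlt1 : (A.filter fun u => ¬ adj v u ∧ u ≠ v).card < a := by omega
      obtain ⟨K1, hK1, hK1', hK1''⟩ := ih _ hlt1 _ rfl σ (by
        refine lt_of_le_of_lt ?_ hτ
        calc ((A.filter fun u => ¬ adj v u ∧ u ≠ v).card : ℝ) * (1 - β) ^ σ
            ≤ ((1 - β) * A.card) * (1 - β) ^ σ := mul_le_mul_of_nonneg_right hA1' (by positivity)
          _ = _ := by rw [pow_succ]; ring)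
      have hce : (A.erase v).card = a - 1 := by rw [Finset.card_erase_of_mem hv, hA]
      have hapos : 0 < a := by
        rw [← hA]
        exact Finset.card_pos.2 ⟨v, hv⟩
      obtain ⟨K2, hK2, hK2', hK2''⟩ := ih (a - 1) (by omega) (A.erase v) hce (σ + 1) (by
        refine lt_of_le_of_lt ?_ hτ
        refine mul_le_mul_of_nonneg_right ?_ (by positivity)
        exact_mod_cast Finset.card_le_card (Finset.erase_subset _ _))
      refine ⟨K1.image (insert v) ∪ K2, ?_, ?_, ?_⟩
      · have h1 : (K1.image (insert v) ∪ K2).card ≤ K1.card + K2.card :=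
          (Finset.card_union_le _ _).trans (Nat.add_le_add_right Finset.card_image_le _)
        have h2 : K1.card ≤ a ^ σ := hK1.trans (Nat.pow_le_pow_left (by omega) _)
        have h3 : K2.card ≤ a ^ (σ + 1) := by
          have : a - 1 + 1 = a := by omega
          rwa [this] at hK2
        have h4 : a ^ σ + a ^ (σ + 1) ≤ (a + 1) ^ (σ + 1) := by
          calc a ^ σ + a ^ (σ + 1) = a ^ σ * (a + 1) := by rw [pow_succ]; ring
            _ ≤ (a + 1) ^ σ * (a + 1) := Nat.mul_le_mul_right _ (Nat.pow_le_pow_left (by omega) _)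
            _ = _ := by rw [pow_succ]
        omega
      · intro B hB
        rw [Finset.mem_union, Finset.mem_image] at hB
        rcases hB with ⟨B', hB', rfl⟩ | hB
        · have h1 := hK1' B' hB'
          have h2 : ((insert v B').card : ℝ) ≤ B'.card + 1 := by
            exact_mod_cast Finset.card_insert_le _ _
          push_cast
          linarith
        · exact hK2' B hB
      · intro I hI hind
        by_cases hvI : v ∈ I
        · obtain ⟨B, hB, hIB⟩ := hK1'' (I.erase v) (by
            intro u hu
            rw [Finset.mem_erase] at hu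
            rw [Finset.mem_filter]
            exact ⟨hI hu.2, hind v hvI u hu.2, hu.1⟩) (by
            intro x hx y hy
            exact hind x (Finset.mem_of_mem_erase hx) y (Finset.mem_of_mem_erase hy))
          refine ⟨insert v B, Finset.mem_union_left _ (Finset.mem_image_of_mem _ hB), ?_⟩
          intro u hu
          by_cases huv : u = v
          · rw [huv]
            exact Finset.mem_insert_self _ _
          · exact Finset.mem_insert_of_mem (hIB (Finset.mem_erase.2 ⟨huv, hu⟩))
        · obtain ⟨B, hB, hIB⟩ := hK2'' I (by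
            intro u hu
            rw [Finset.mem_erase]
            exact ⟨fun h => hvI (h ▸ hu), hI hu⟩) hind
          exact ⟨B, Finset.mem_union_right _ hB, hIB⟩

end cont

section prob

variable {X : Type} [Fintype X] [DecidableEq X]

open Classical in
/-- The probability of the event `E` for a random subset of `X` which contains every element of `X`
with probability `p`, independently. -/
noncomputable def Prob (X : Type) [Fintype X] (p : ℝ) (E : Finset X → Prop) : ℝ :=
  ∑ S : Finset X, if E S then p ^ S.card * (1 - p) ^ (Fintype.card X - S.card) else 0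

variable {p : ℝ}

lemma wt_nonneg (h0 : 0 ≤ p) (h1 : p ≤ 1) (S : Finset X) :
    0 ≤ p ^ S.card * (1 - p) ^ (Fintype.card X - S.card) := by
  have : 0 ≤ 1 - p := by linarith
  positivity

lemma Prob_mono (h0 : 0 ≤ p) (h1 : p ≤ 1) {E F : Finset X → Prop} (h : ∀ S, E S → F S) :
    Prob X p E ≤ Prob X p F := by
  unfold Prob
  refine Finset.sum_le_sum fun S _ => ?_
  by_cases hE : E S
  · rw [if_pos hE, if_pos (h S hE)]
  · rw [if_neg hE]
    split_ifs
    · exact wt_nonneg h0 h1 S
    · exact le_rfl

lemma Prob_nonneg (h0 : 0 ≤ p) (h1 : p ≤ 1) (E : Finset X → Prop) : 0 ≤ Prob X p E := by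
  unfold Prob
  refine Finset.sum_nonneg fun S _ => ?_
  split_ifs
  · exact wt_nonneg h0 h1 S
  · exact le_rfl

lemma Prob_or (h0 : 0 ≤ p) (h1 : p ≤ 1) (E F : Finset X → Prop) :
    Prob X p (fun S => E S ∨ F S) ≤ Prob X p E + Prob X p F := by
  unfold Prob
  rw [← Finset.sum_add_distrib]
  refine Finset.sum_le_sum fun S _ => ?_
  have := wt_nonneg h0 h1 S
  by_cases hE : E S <;> by_cases hF : F S <;> simp [hE, hF] <;> linarith

lemma Prob_exists (h0 : 0 ≤ p) (h1 : p ≤ 1) {ι : Type} (s : Finset ι) (E : ι → Finset X → Prop) :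
    Prob X p (fun S => ∃ i ∈ s, E i S) ≤ ∑ i ∈ s, Prob X p (E i) := by
  classical
  unfold Prob
  rw [Finset.sum_comm]
  refine Finset.sum_le_sum fun S _ => ?_
  by_cases h : ∃ i ∈ s, E i S
  · obtain ⟨i, hi, hE⟩ := h
    rw [if_pos ⟨i, hi, hE⟩]
    have h3 := Finset.single_le_sum (f := fun j => if E j S then
      p ^ S.card * (1 - p) ^ (Fintype.card X - S.card) else 0) (fun j _ => by
        split_ifs
        · exact wt_nonneg h0 h1 S
        · exact le_rfl) hi
    simp only [if_pos hE] at h3
    exact h3
  · rw [if_neg h]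
    refine Finset.sum_nonneg fun i _ => ?_
    split_ifs
    · exact wt_nonneg h0 h1 S
    · exact le_rfl

/-- the probability that the random set contains a given set -/
lemma Prob_superset (T : Finset X) : Prob X p (fun S => T ⊆ S) = p ^ T.card := by
  classical
  have h00 : Prob X p (fun S => T ⊆ S) = ∑ S : Finset X, (if T ⊆ S then
      p ^ S.card * (1 - p) ^ (Fintype.card X - S.card) else 0) := by
    unfold Prob
    refine Finset.sum_congr rfl fun S _ => ?_
    by_cases h : T ⊆ S <;> simp [h]
  rw [h00, ← Finset.sum_filter]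
  have h1 : ∑ S ∈ univ.filter (fun S => T ⊆ S), p ^ S.card * (1 - p) ^ (Fintype.card X - S.card) =
      ∑ R ∈ Tᶜ.powerset, p ^ T.card * (p ^ R.card * (1 - p) ^ (Tᶜ.card - R.card)) := by
    refine Finset.sum_nbij' (fun S => S \ T) (fun R => T ∪ R) ?_ ?_ ?_ ?_ ?_
    · intro S hS
      rw [Finset.mem_powerset]
      intro x hx
      rw [Finset.mem_compl]
      exact (Finset.mem_sdiff.1 hx).2
    · intro R hR
      rw [Finset.mem_filter]
      exact ⟨Finset.mem_univ _, Finset.subset_union_left⟩
    · intro S hS
      rw [Finset.mem_filter] at hS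
      exact Finset.union_sdiff_of_subset hS.2
    · intro R hR
      rw [Finset.mem_powerset] at hR
      have : Disjoint T R := by
        rw [Finset.disjoint_left]
        intro x hx hx'
        exact (Finset.mem_compl.1 (hR hx')) hx
      exact Finset.union_sdiff_cancel_left this
    · intro S hS
      rw [Finset.mem_filter] at hS
      have h2 : S.card = T.card + (S \ T).card := by
        have := Finset.card_sdiff_add_card_eq_card hS.2
        omega
      have h3 : Fintype.card X - S.card = Tᶜ.card - (S \ T).card := by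
        rw [Finset.card_compl]
        omega
      rw [h3, ← mul_assoc, ← pow_add, ← h2]
  rw [h1, ← Finset.mul_sum, Finset.sum_pow_mul_eq_add_pow]
  rw [add_sub_cancel, one_pow, mul_one]

lemma Prob_true : Prob X p (fun _ => True) = 1 := by
  have h := Prob_superset (p := p) (∅ : Finset X)
  simpa using h

lemma Prob_not (E : Finset X → Prop) : Prob X p (fun S => ¬ E S) = 1 - Prob X p E := by
  classical
  have h : Prob X p (fun S => ¬ E S) + Prob X p E = 1 := by
    rw [← Prob_true (X := X) (p := p)]
    unfold Prob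
    rw [← Finset.sum_add_distrib]
    refine Finset.sum_congr rfl fun S _ => ?_
    by_cases hE : E S <;> simp [hE]
  linarith

/-- Markov's inequality for sums of the probabilities of the elements of a family of sets -/
lemma markov (h0 : 0 ≤ p) (h1 : p ≤ 1) {ι : Type} (s : Finset ι) (T : ι → Finset X) (t : ℝ)
    (ht : 0 < t) :
    Prob X p (fun S => t ≤ ((s.filter fun i => T i ⊆ S).card : ℝ)) ≤
      (∑ i ∈ s, p ^ (T i).card) / t := by
  classical
  rw [le_div_iff₀ ht]
  have h2 : ∑ i ∈ s, p ^ (T i).card = ∑ S : Finset X, ((s.filter fun i => T i ⊆ S).card : ℝ) *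
      (p ^ S.card * (1 - p) ^ (Fintype.card X - S.card)) := by
    calc ∑ i ∈ s, p ^ (T i).card = ∑ i ∈ s, Prob X p (fun S => T i ⊆ S) :=
          Finset.sum_congr rfl fun i _ => (Prob_superset (T i)).symm
      _ = ∑ S : Finset X, ∑ i ∈ s, (if T i ⊆ S then
          p ^ S.card * (1 - p) ^ (Fintype.card X - S.card) else 0) := by
          unfold Prob
          rw [Finset.sum_comm]
          refine Finset.sum_congr rfl fun S _ => Finset.sum_congr rfl fun i _ => ?_
          congr
      _ = _ := by
          refine Finset.sum_congr rfl fun S _ => ?_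
          rw [← Finset.sum_filter, Finset.sum_const, nsmul_eq_mul]
  rw [h2]
  unfold Prob
  rw [Finset.sum_mul]
  refine Finset.sum_le_sum fun S _ => ?_
  have h3 := wt_nonneg h0 h1 S
  split_ifs with h
  · rw [mul_comm]
    exact mul_le_mul_of_nonneg_right h h3
  · rw [zero_mul]
    exact mul_nonneg (Nat.cast_nonneg _) h3

/-- the random set is seldom small -/
lemma small (h0 : 0 < p) (h1 : p ≤ 1) (hX : 0 < Fintype.card X) :
    Prob X p (fun S => (S.card : ℝ) < p * Fintype.card X / 2) ≤ 4 / (p * Fintype.card X) := by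
  classical
  obtain ⟨N, hN⟩ : ∃ N : ℝ, N = Fintype.card X := ⟨_, rfl⟩
  have hN0 : 0 < N := by
    rw [hN]
    exact_mod_cast hX
  rw [← hN]
  obtain ⟨w, hw⟩ : ∃ w : Finset X → ℝ, w = fun S => p ^ S.card * (1 - p) ^ (Fintype.card X - S.card) :=
    ⟨_, rfl⟩
  have hw0 : ∀ S, 0 ≤ w S := by
    intro S
    rw [hw]
    exact wt_nonneg h0.le h1 S
  have hsup : ∀ T : Finset X, ∑ S, (if T ⊆ S then w S else 0) = p ^ T.card := by
    intro T
    rw [← Prob_superset (p := p) T]
    unfold Prob
    refine Finset.sum_congr rfl fun S _ => ?_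
    rw [hw]
    by_cases h : T ⊆ S <;> simp [h]
  -- the moments
  have m0 : ∑ S, w S = 1 := by
    have := hsup ∅
    simpa using this
  have hcard : ∀ S : Finset X, (S.card : ℝ) = ∑ x, (if x ∈ S then (1 : ℝ) else 0) := by
    intro S
    simp
  have m1 : ∑ S, (S.card : ℝ) * w S = p * N := by
    have e1 : ∀ S : Finset X, (S.card : ℝ) * w S = ∑ x : X, (if ({x} : Finset X) ⊆ S then w S else 0) := by
      intro S
      rw [hcard, Finset.sum_mul]
      refine Finset.sum_congr rfl fun x _ => ?_
      simp
    simp_rw [e1]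
    rw [Finset.sum_comm]
    simp_rw [hsup]
    simp only [Finset.card_singleton, pow_one, Finset.sum_const, Finset.card_univ, nsmul_eq_mul]
    rw [hN]
    ring
  have m2 : ∑ S, (S.card : ℝ) ^ 2 * w S ≤ p ^ 2 * N ^ 2 + p * N := by
    have e1 : ∀ S : Finset X, (S.card : ℝ) ^ 2 * w S =
        ∑ x : X, ∑ y : X, (if ({x, y} : Finset X) ⊆ S then w S else 0) := by
      intro S
      rw [pow_two, hcard, Finset.sum_mul_sum, Finset.sum_mul]
      refine Finset.sum_congr rfl fun x _ => ?_
      rw [Finset.sum_mul]
      refine Finset.sum_congr rfl fun y _ => ?_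
      by_cases hx : x ∈ S <;> by_cases hy : y ∈ S <;>
        simp [hx, hy, Finset.insert_subset_iff]
    simp_rw [e1]
    rw [Finset.sum_comm]
    have e2 : ∀ x : X, ∑ S : Finset X, ∑ y : X, (if ({x, y} : Finset X) ⊆ S then w S else 0) ≤
        p ^ 2 * N + p := by
      intro x
      rw [Finset.sum_comm]
      simp_rw [hsup]
      rw [← Finset.add_sum_erase univ _ (Finset.mem_univ x)]
      have e3 : ∑ y ∈ univ.erase x, p ^ ({x, y} : Finset X).card = ∑ y ∈ univ.erase x, p ^ 2 := by
        refine Finset.sum_congr rfl fun y hy => ?_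
        rw [Finset.card_pair (Finset.ne_of_mem_erase hy).symm]
      rw [e3, Finset.sum_const, Finset.card_erase_of_mem (Finset.mem_univ x), Finset.card_univ,
        nsmul_eq_mul]
      have e4 : ((Fintype.card X - 1 : ℕ) : ℝ) ≤ N := by
        rw [hN]
        exact_mod_cast Nat.sub_le _ _
      have e5 : p ^ ({x, x} : Finset X).card = p := by simp
      rw [e5]
      have : 0 ≤ p ^ 2 := by positivity
      nlinarith
    calc ∑ x : X, ∑ S : Finset X, ∑ y : X, (if ({x, y} : Finset X) ⊆ S then w S else 0)
        ≤ ∑ _x : X, (p ^ 2 * N + p) := Finset.sum_le_sum fun x _ => e2 x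
      _ = N * (p ^ 2 * N + p) := by
          rw [Finset.sum_const, Finset.card_univ, nsmul_eq_mul, hN]
      _ = _ := by ring
  have var : ∑ S, ((S.card : ℝ) - p * N) ^ 2 * w S ≤ p * N := by
    have e1 : ∀ S : Finset X, ((S.card : ℝ) - p * N) ^ 2 * w S =
        (S.card : ℝ) ^ 2 * w S - 2 * (p * N) * ((S.card : ℝ) * w S) + (p * N) ^ 2 * w S := by
      intro S
      ring
    simp_rw [e1]
    rw [Finset.sum_add_distrib, Finset.sum_sub_distrib, ← Finset.mul_sum, ← Finset.mul_sum, m0, m1]
    nlinarith
  rw [le_div_iff₀ (by positivity)]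
  have h2 : Prob X p (fun S => (S.card : ℝ) < p * N / 2) * (p * N / 2) ^ 2 ≤ p * N := by
    refine le_trans ?_ var
    unfold Prob
    rw [Finset.sum_mul]
    refine Finset.sum_le_sum fun S _ => ?_
    have h3 := hw0 S
    split_ifs with h
    · have h4 : (p * N / 2) ^ 2 ≤ ((S.card : ℝ) - p * N) ^ 2 := by
        have : 0 ≤ p * N := by positivity
        nlinarith
      have h5 : p ^ S.card * (1 - p) ^ (Fintype.card X - S.card) = w S := by rw [hw]
      rw [h5, mul_comm]
      exact mul_le_mul_of_nonneg_right h4 h3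
    · rw [zero_mul]
      exact mul_nonneg (sq_nonneg _) h3
  have hpN : 0 < p * N := by positivity
  have h3 : Prob X p (fun S => (S.card : ℝ) < p * N / 2) * (p * N) * (p * N) ≤ 4 * (p * N) := by
    nlinarith
  exact le_of_mul_le_mul_right h3 hpN

end prob

end Pool.Agent.H384.CC
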