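import Mathlib
import Pool.Agent.Y570.KP.Kern
import Pool.Agent.Y570.LS.Radial
import Pool.Agent.Y570.LS.Ent
import Pool.Agent.TH41.BL.CH7

/-!
MP_0430e4_lc (helper384): the number of pairs at a given even distance in a large set of words.
-/

set_option autoImplicit false

namespace Pool.Agent.H384.CC

open Finset Pool.Agent.TH41.BL Pool.Agent.Y570

/-- positivity of the Krawtchouk polynomials outside the interval of the zeros -/
lemma kr_ratio (n d j : ℕ) (hd : 2 * d ≤ n) (hj : j ≤ n) (s : ℝ) (hs : s * s = 1)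
    (h : 2 * √((d : ℝ) * ((n : ℝ) - d + 1)) ≤ s * ((n : ℝ) - 2 * j)) :
    ∀ w : ℕ, w + 1 ≤ d → 0 < s ^ w * (kr n w j : ℝ) ∧
      √(((w : ℝ) + 1) * ((n : ℝ) - w)) * (s ^ w * (kr n w j : ℝ)) ≤
        ((w : ℝ) + 1) * (s ^ (w + 1) * (kr n (w + 1) j : ℝ)) := by
  have hmono : ∀ w : ℕ, w + 1 ≤ d →
      √(((w : ℝ) + 1) * ((n : ℝ) - w)) ≤ √((d : ℝ) * ((n : ℝ) - d + 1)) := by
    intro w hw
    apply Real.sqrt_le_sqrt
    have h1 : ((w : ℝ) + 1) ≤ d := by exact_mod_cast hw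
    have h2 : (2 : ℝ) * d ≤ n := by exact_mod_cast hd
    nlinarith
  intro w
  induction w with
  | zero =>
    intro hw
    have h0 : (kr n 0 j : ℝ) = 1 := by
      have := KRAf.coeff_G (R := ℝ) n j 0 hj 1 1
      unfold kr
      simp
    have h1 := (LS.kr_rec n j hj 0).2
    refine ⟨by rw [h0]; simp, ?_⟩
    rw [h0]
    have h2 := hmono 0 hw
    have h3 : 0 ≤ √((d : ℝ) * ((n : ℝ) - d + 1)) := Real.sqrt_nonneg _
    rw [zero_add, h1, h0]
    simp only [pow_zero, pow_one, Nat.cast_zero, zero_add, mul_one, one_mul] at *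
    linarith
  | succ w ih =>
    intro hw
    obtain ⟨h1, h2⟩ := ih (by omega)
    have hw0 : (0 : ℝ) < (w : ℝ) + 1 := by positivity
    have hwn : (0 : ℝ) < (n : ℝ) - w := by
      have : w < n := by omega
      have : (w : ℝ) < n := by exact_mod_cast this
      linarith
    obtain ⟨a, ha⟩ : ∃ a : ℝ, a = √(((w : ℝ) + 1) * ((n : ℝ) - w)) := ⟨_, rfl⟩
    have haa : a * a = ((w : ℝ) + 1) * ((n : ℝ) - w) := by
      rw [ha]
      exact Real.mul_self_sqrt (by positivity)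
    have ha0 : 0 < a := by
      rw [ha]
      exact Real.sqrt_pos.2 (by positivity)
    rw [← ha] at h2
    obtain ⟨c, hc⟩ : ∃ c : ℝ, c = s ^ w * (kr n w j : ℝ) := ⟨_, rfl⟩
    obtain ⟨c', hc'⟩ : ∃ c' : ℝ, c' = s ^ (w + 1) * (kr n (w + 1) j : ℝ) := ⟨_, rfl⟩
    obtain ⟨c'', hc''⟩ : ∃ c'' : ℝ, c'' = s ^ (w + 1 + 1) * (kr n (w + 1 + 1) j : ℝ) := ⟨_, rfl⟩
    rw [← hc, ← hc'] at h2
    rw [← hc] at h1
    have hc'0 : 0 < c' := by
      have : 0 < a * c := mul_pos ha0 h1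
      by_contra hcon
      push Not at hcon
      nlinarith
    rw [← hc', ← hc'']
    refine ⟨hc'0, ?_⟩
    have h3 : ((n : ℝ) - w) * c ≤ a * c' := by
      have h4 : a * (a * c) ≤ a * (((w : ℝ) + 1) * c') := mul_le_mul_of_nonneg_left h2 ha0.le
      have h5 : ((w : ℝ) + 1) * (((n : ℝ) - w) * c) ≤ ((w : ℝ) + 1) * (a * c') := by
        calc ((w : ℝ) + 1) * (((n : ℝ) - w) * c) = a * (a * c) := by
              rw [← mul_assoc, ← haa]; ring
          _ ≤ a * (((w : ℝ) + 1) * c') := h4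
          _ = _ := by ring
      exact le_of_mul_le_mul_left h5 hw0
    have hrec := (LS.kr_rec n j hj w).1
    have h6 : ((w : ℝ) + 1 + 1) * c'' = s * ((n : ℝ) - 2 * j) * c' - ((n : ℝ) - w) * c := by
      rw [hc'', hc', hc]
      have e1 : s ^ (w + 1 + 1) = s ^ w := by
        rw [pow_succ, pow_succ, mul_assoc, hs, mul_one]
      have e2 : s * (s ^ (w + 1)) = s ^ w := by
        rw [pow_succ, ← mul_assoc, mul_comm s, mul_assoc, hs, mul_one]
      calc ((w : ℝ) + 1 + 1) * (s ^ (w + 1 + 1) * (kr n (w + 1 + 1) j : ℝ))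
          = s ^ w * (((w : ℝ) + 1 + 1) * (kr n (w + 1 + 1) j : ℝ)) := by rw [e1]; ring
        _ = s ^ w * (((n : ℝ) - 2 * j) * (kr n (w + 1) j : ℝ) - ((n : ℝ) - w) * (kr n w j : ℝ)) := by
            rw [← hrec]; ring
        _ = (s * s ^ (w + 1)) * (((n : ℝ) - 2 * j) * (kr n (w + 1) j : ℝ)) -
            ((n : ℝ) - w) * (s ^ w * (kr n w j : ℝ)) := by rw [e2]; ring
        _ = _ := by ring
    have h7 := hmono w (by omega)
    have h8 := hmono (w + 1) hw
    rw [← ha] at h7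
    have h9 : √((((w + 1 : ℕ) : ℝ) + 1) * ((n : ℝ) - (w + 1 : ℕ))) * c' ≤
        √((d : ℝ) * ((n : ℝ) - d + 1)) * c' := mul_le_mul_of_nonneg_right h8 hc'0.le
    have h10 : 2 * √((d : ℝ) * ((n : ℝ) - d + 1)) * c' ≤ s * ((n : ℝ) - 2 * j) * c' :=
      mul_le_mul_of_nonneg_right h hc'0.le
    have h11 : a * c' ≤ √((d : ℝ) * ((n : ℝ) - d + 1)) * c' :=
      mul_le_mul_of_nonneg_right h7 hc'0.le
    push_cast at h9 ⊢
    linarith

lemma kr_pos (n d j : ℕ) (hd : 2 * d ≤ n) (hj : j ≤ n) (s : ℝ) (hs : s * s = 1)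
    (h : 2 * √((d : ℝ) * ((n : ℝ) - d + 1)) ≤ s * ((n : ℝ) - 2 * j)) :
    0 < s ^ d * (kr n d j : ℝ) := by
  rcases Nat.eq_zero_or_pos d with h0 | h0
  · subst h0
    have : (kr n 0 j : ℝ) = 1 := by
      unfold kr
      simp
    rw [this]
    simp
  · obtain ⟨w, rfl⟩ : ∃ w, d = w + 1 := ⟨d - 1, by omega⟩
    obtain ⟨h1, h2⟩ := kr_ratio n (w + 1) j hd hj s hs h w le_rfl
    have hwn : (0 : ℝ) < (n : ℝ) - w := by
      have : w < n := by omega
      have : (w : ℝ) < n := by exact_mod_cast this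
      linarith
    have h3 : 0 < √(((w : ℝ) + 1) * ((n : ℝ) - w)) := Real.sqrt_pos.2 (by positivity)
    have h4 := lt_of_lt_of_le (mul_pos h3 h1) h2
    by_contra hcon
    push Not at hcon
    have : (0 : ℝ) < (w : ℝ) + 1 := by positivity
    nlinarith

/-- the second moment of a Krawtchouk polynomial -/
lemma kr_sq (n d j : ℕ) (hd : d ≤ n) (hj : j ≤ n) :
    (n.choose j : ℝ) * (kr n d j : ℝ) ^ 2 ≤ 2 ^ n * (n.choose d : ℝ) := by
  have h1 : ∑ w ∈ range (n + 1), (n.choose w : ℝ) * (kr n d w : ℝ) ^ 2 =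
      2 ^ n * (n.choose d : ℝ) := by
    have h2 := KRAf.inv n d d hd
    rw [if_pos rfl] at h2
    rw [← h2, Finset.sum_mul]
    refine Finset.sum_congr rfl fun w hw => ?_
    have h3 := CE7f.kr_symm n w d hd
    rw [pow_two, ← mul_assoc, h3]
    ring
  rw [← h1]
  exact Finset.single_le_sum (f := fun w => (n.choose w : ℝ) * (kr n d w : ℝ) ^ 2)
    (fun w _ => by positivity) (Finset.mem_range.2 (by omega))

/-- the smallest value of a Krawtchouk polynomial of even degree -/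
lemma kr_lower (n d k₀ j : ℕ) (hd : 2 * d ≤ n) (he : Even d) (hk : 2 * k₀ ≤ n) (hj : j ≤ n)
    (h : ∀ i : ℕ, i < k₀ → 2 * √((d : ℝ) * ((n : ℝ) - d + 1)) ≤ (n : ℝ) - 2 * i) :
    -√(2 ^ n * (n.choose d : ℝ) / (n.choose k₀ : ℝ)) ≤ (kr n d j : ℝ) := by
  have hL : 0 ≤ √(2 ^ n * (n.choose d : ℝ) / (n.choose k₀ : ℝ)) := Real.sqrt_nonneg _
  rcases Nat.lt_or_ge j k₀ with h1 | h1
  · have := kr_pos n d j hd hj 1 (by norm_num) (by rw [one_mul]; exact h j h1)
    rw [one_pow, one_mul] at this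
    linarith
  rcases Nat.lt_or_ge (n - k₀) j with h2 | h2
  · have h3 := h (n - j) (by omega)
    have h4 : ((n - j : ℕ) : ℝ) = (n : ℝ) - j := by
      rw [Nat.cast_sub hj]
    rw [h4] at h3
    have := kr_pos n d j hd hj (-1) (by norm_num) (by linarith)
    rw [he.neg_one_pow, one_mul] at this
    linarith
  · have h3 : (n.choose k₀ : ℝ) ≤ n.choose j := by
      exact_mod_cast LS.choose_mid h1 (by omega)
    have h4 := kr_sq n d j (by omega) hj
    have hk0 : (0 : ℝ) < n.choose k₀ := by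
      exact_mod_cast Nat.choose_pos (by omega)
    have h5 : (kr n d j : ℝ) ^ 2 ≤ 2 ^ n * (n.choose d : ℝ) / (n.choose k₀ : ℝ) := by
      rw [le_div_iff₀ hk0]
      nlinarith [sq_nonneg (kr n d j : ℝ)]
    exact (abs_le.1 (Real.abs_le_sqrt h5)).1

/-- the number of pairs at distance `d` in a set of words -/
theorem pairs (n d k₀ : ℕ) (hd : 2 * d ≤ n) (he : Even d) (hk : 2 * k₀ ≤ n)
    (h : ∀ i : ℕ, i < k₀ → 2 * √((d : ℝ) * ((n : ℝ) - d + 1)) ≤ (n : ℝ) - 2 * i)
    (A : Finset (Fin n → Bool)) :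
    (n.choose d : ℝ) * (A.card : ℝ) ^ 2 / 2 ^ n -
        √(2 ^ n * (n.choose d : ℝ) / (n.choose k₀ : ℝ)) * A.card ≤
      ∑ v ∈ A, ((A.filter fun u => hammingDist v u = d).card : ℝ) := by
  classical
  obtain ⟨L, hL⟩ : ∃ L : ℝ, L = √(2 ^ n * (n.choose d : ℝ) / (n.choose k₀ : ℝ)) := ⟨_, rfl⟩
  rw [← hL]
  obtain ⟨a, ha⟩ : ∃ a : (Fin n → Bool) → ℝ, a = fun x => if x ∈ A then 1 else 0 := ⟨_, rfl⟩
  have h1 := KP.form_eq CH7f.ch (fun j => (kr n d j : ℝ)) a
  have h2 : ∀ x y : Fin n → Bool,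
      ((2 ^ n)⁻¹ * ∑ j ∈ Finset.range (n + 1), (kr n d j : ℝ) * (kr n j (hammingDist x y) : ℝ)) =
        if hammingDist x y = d then (1 : ℝ) else 0 := by
    intro x y
    rw [KRAf.inv n d _ (PK9f.hd_le x y)]
    by_cases hxy : hammingDist x y = d
    · rw [if_pos hxy, if_pos hxy.symm, inv_mul_cancel₀ (by positivity)]
    · rw [if_neg hxy, if_neg (fun h => hxy h.symm), mul_zero]
  simp_rw [h2] at h1
  have h3 : ∑ x, ∑ y, (if hammingDist x y = d then (1 : ℝ) else 0) * a x * a y =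
      ∑ v ∈ A, ((A.filter fun u => hammingDist v u = d).card : ℝ) := by
    have e1 : ∀ x : Fin n → Bool, ∑ y, (if hammingDist x y = d then (1 : ℝ) else 0) * a x * a y =
        if x ∈ A then ((A.filter fun u => hammingDist x u = d).card : ℝ) else 0 := by
      intro x
      by_cases hx : x ∈ A
      · rw [if_pos hx, Finset.card_filter]
        push_cast
        rw [← Finset.sum_filter_add_sum_filter_not univ (fun y => y ∈ A)]
        have e2 : ∑ y ∈ univ.filter (fun y => y ∉ A),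
            (if hammingDist x y = d then (1 : ℝ) else 0) * a x * a y = 0 := by
          refine Finset.sum_eq_zero fun y hy => ?_
          rw [ha]
          simp only
          rw [if_neg (Finset.mem_filter.1 hy).2, mul_zero]
        rw [e2, add_zero]
        have e3 : univ.filter (fun y => y ∈ A) = A := by
          ext y
          simp
        rw [e3]
        refine Finset.sum_congr rfl fun y hy => ?_
        rw [ha]
        simp only
        rw [if_pos hx, if_pos hy, mul_one, mul_one]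
      · rw [if_neg hx]
        refine Finset.sum_eq_zero fun y _ => ?_
        rw [ha]
        simp only
        rw [if_neg hx, mul_zero, zero_mul]
    simp_rw [e1]
    rw [← Finset.sum_filter]
    congr 1
    ext x
    simp
  rw [h3] at h1
  rw [h1]
  have h4 := KP.parseval CH7f.ch a
  have h5 : ∑ x, a x ^ 2 = (A.card : ℝ) := by
    rw [ha]
    simp
  rw [h5] at h4
  have h6 : KP.TT a 0 = (A.card : ℝ) ^ 2 := by
    unfold KP.TT
    rw [Finset.powersetCard_zero, Finset.sum_singleton]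
    congr 1
    have e1 : ∀ x : Fin n → Bool, PK9f.chi ∅ x * a x = a x := by
      intro x
      unfold PK9f.chi
      simp
    simp_rw [e1]
    rw [ha]
    simp
  have h7 : ∑ j ∈ range (n + 1), (kr n d j : ℝ) * KP.TT a j ≥
      (n.choose d : ℝ) * (A.card : ℝ) ^ 2 - L * ∑ j ∈ range (n + 1), KP.TT a j := by
    have e1 : ∑ j ∈ range (n + 1), ((kr n d j : ℝ) * KP.TT a j + L * KP.TT a j) ≥
        (n.choose d : ℝ) * (A.card : ℝ) ^ 2 := by
      have e2 : ∀ j ∈ range (n + 1), 0 ≤ (kr n d j : ℝ) * KP.TT a j + L * KP.TT a j := by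
        intro j hj
        have e3 := kr_lower n d k₀ j hd he hk (by
          have := Finset.mem_range.1 hj
          omega) h
        rw [← hL] at e3
        have e4 := KP.TT_nonneg a j
        nlinarith
      have e5 := Finset.single_le_sum e2 (Finset.mem_range.2 (Nat.succ_pos n) : 0 ∈ range (n + 1))
      refine le_trans ?_ e5
      rw [h6, KRAf.kr_zero_right]
      have : 0 ≤ L := by
        rw [hL]
        exact Real.sqrt_nonneg _
      push_cast
      have : 0 ≤ L * (A.card : ℝ) ^ 2 := by positivity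
      linarith
    rw [Finset.sum_add_distrib, ← Finset.mul_sum] at e1
    linarith
  have h8 : (2 ^ n : ℝ)⁻¹ * ((n.choose d : ℝ) * (A.card : ℝ) ^ 2 -
      L * ∑ j ∈ range (n + 1), KP.TT a j) ≤
      (2 ^ n)⁻¹ * ∑ j ∈ range (n + 1), (kr n d j : ℝ) * KP.TT a j :=
    mul_le_mul_of_nonneg_left h7 (by positivity)
  refine le_trans (le_of_eq ?_) h8
  rw [mul_sub, ← h4]
  ring

/-- every large set of words has a word with many words at distance `d` -/
theorem degree (n d k₀ : ℕ) (hd : 2 * d ≤ n) (he : Even d) (hk : 2 * k₀ ≤ n)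
    (h : ∀ i : ℕ, i < k₀ → 2 * √((d : ℝ) * ((n : ℝ) - d + 1)) ≤ (n : ℝ) - 2 * i)
    (A : Finset (Fin n → Bool)) (hne : A.Nonempty)
    (hA : 2 * 2 ^ n * √(2 ^ n * (n.choose d : ℝ) / (n.choose k₀ : ℝ)) / n.choose d ≤ A.card) :
    ∃ v ∈ A, (n.choose d : ℝ) / 2 ^ (n + 1) * A.card ≤
      ((A.filter fun u => hammingDist v u = d).card : ℝ) := by
  by_contra hcon
  push Not at hcon
  have h1 := pairs n d k₀ hd he hk h A
  have h2 := Finset.sum_lt_sum_of_nonempty hne hcon
  rw [Finset.sum_const, nsmul_eq_mul] at h2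
  have hC : (0 : ℝ) < n.choose d := by
    exact_mod_cast Nat.choose_pos (by omega)
  rw [div_le_iff₀ hC] at hA
  have hA0 : (0 : ℝ) < A.card := by exact_mod_cast hne.card_pos
  obtain ⟨L, hL⟩ : ∃ L : ℝ, L = √(2 ^ n * (n.choose d : ℝ) / (n.choose k₀ : ℝ)) := ⟨_, rfl⟩
  rw [← hL] at h1 hA
  have h2n : (0 : ℝ) < 2 ^ n := by positivity
  have h3 : (n.choose d : ℝ) * (A.card : ℝ) ^ 2 / 2 ^ n - L * A.card <
      A.card * ((n.choose d : ℝ) / 2 ^ (n + 1) * A.card) := lt_of_le_of_lt h1 h2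
  have h4 : L * A.card ≤ A.card * ((n.choose d : ℝ) / 2 ^ (n + 1) * A.card) := by
    rw [pow_succ]
    have : L ≤ (A.card : ℝ) * n.choose d / (2 ^ n * 2) := by
      rw [le_div_iff₀ (by positivity)]
      linarith
    calc L * A.card ≤ ((A.card : ℝ) * n.choose d / (2 ^ n * 2)) * A.card :=
          mul_le_mul_of_nonneg_right this hA0.le
      _ = _ := by ring
  have h5 : (n.choose d : ℝ) * (A.card : ℝ) ^ 2 / 2 ^ n =
      2 * (A.card * ((n.choose d : ℝ) / 2 ^ (n + 1) * A.card)) := by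
    field_simp
    ring
  linarith

end Pool.Agent.H384.CC
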