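import Mathlib
import Pool.Agent.H384.CC.Spec
import Pool.Agent.H384.CC.Cont

/-!
MP_0430e4_lc (helper384): containers for binary codes, asymptotically.
-/

set_option autoImplicit false

namespace Pool.Agent.H384.CC

open Finset Filter Topology Pool.Agent.Y570

/-- minimum distance at least `d` -/
def IsCode {n : ℕ} (d : ℕ) (C : Finset (Fin n → Bool)) : Prop :=
  ∀ x ∈ C, ∀ y ∈ C, x ≠ y → d ≤ hammingDist x y

lemma ev_poly (c : ℝ) {ε : ℝ} (hε : 0 < ε) :
    ∀ᶠ n : ℕ in atTop, c * ((n : ℝ) + 1) ^ 3 ≤ Real.exp (ε * n) := by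
  have h1 : Tendsto (fun x : ℝ => (|c| * 8) * (x ^ 3 * Real.exp (-ε * x))) atTop (𝓝 ((|c| * 8) * 0)) := by
    apply Tendsto.const_mul
    have := Real.tendsto_pow_mul_exp_neg_atTop_nhds_zero 3
    have h2 : Tendsto (fun x : ℝ => ε * x) atTop atTop := tendsto_id.const_mul_atTop hε
    have h3 := (this.comp h2).const_mul ((ε ^ 3)⁻¹)
    rw [mul_zero] at h3
    refine h3.congr fun x => ?_
    simp only [Function.comp]
    rw [mul_pow]
    field_simp
  rw [mul_zero] at h1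
  have h2 := (h1.comp tendsto_natCast_atTop_atTop).eventually (gt_mem_nhds (zero_lt_one))
  filter_upwards [h2, eventually_ge_atTop 1] with n hn hn1
  simp only [Function.comp] at hn
  have hn1' : (1 : ℝ) ≤ n := by exact_mod_cast hn1
  have h3 : ((n : ℝ) + 1) ^ 3 ≤ 8 * (n : ℝ) ^ 3 := by
    calc ((n : ℝ) + 1) ^ 3 ≤ (2 * (n : ℝ)) ^ 3 := by gcongr; linarith
      _ = _ := by ring
  have h4 : Real.exp (-ε * n) * Real.exp (ε * n) = 1 := by
    rw [← Real.exp_add]
    simp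
  have hpos := Real.exp_pos (ε * n)
  have h5 : |c| * 8 * (n : ℝ) ^ 3 ≤ Real.exp (ε * n) := by
    calc |c| * 8 * (n : ℝ) ^ 3 = |c| * 8 * (n : ℝ) ^ 3 * (Real.exp (-ε * n) * Real.exp (ε * n)) := by
          rw [h4, mul_one]
      _ = (|c| * 8 * ((n : ℝ) ^ 3 * Real.exp (-ε * n))) * Real.exp (ε * n) := by ring
      _ ≤ 1 * Real.exp (ε * n) := mul_le_mul_of_nonneg_right hn.le hpos.le
      _ = _ := one_mul _
  calc c * ((n : ℝ) + 1) ^ 3 ≤ |c| * ((n : ℝ) + 1) ^ 3 := by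
        gcongr
        exact le_abs_self c
    _ ≤ |c| * (8 * (n : ℝ) ^ 3) := by gcongr
    _ = |c| * 8 * (n : ℝ) ^ 3 := by ring
    _ ≤ _ := h5

/-- the parameters -/
lemma params {δ ε : ℝ} (h0 : 0 < δ) (h1 : δ < 1 / 2) (hε : 0 < ε) :
    ∀ᶠ n : ℕ in atTop, ∃ d k₀ : ℕ, 2 * d ≤ n ∧ Even d ∧ 2 * k₀ ≤ n ∧ d < ⌈δ * n⌉₊ ∧ 1 ≤ d ∧
      (∀ i : ℕ, i < k₀ → 2 * √((d : ℝ) * ((n : ℝ) - d + 1)) ≤ (n : ℝ) - 2 * i) ∧
      Real.exp (n * (Real.binEntropy δ - ε)) ≤ (n + 1) * (n.choose d : ℝ) ∧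
      Real.exp (n * (Real.binEntropy (1 / 2 - √(δ * (1 - δ))) - ε)) ≤
        (n + 1) * (n.choose k₀ : ℝ) := by
  obtain ⟨κ, hκ⟩ : ∃ κ : ℝ, κ = 1 / 2 - √(δ * (1 - δ)) := ⟨_, rfl⟩
  rw [← hκ]
  have hp : 0 < δ * (1 - δ) := mul_pos h0 (by linarith)
  have hs0 : 0 < √(δ * (1 - δ)) := Real.sqrt_pos.2 hp
  have hss : √(δ * (1 - δ)) ^ 2 = δ * (1 - δ) := Real.sq_sqrt hp.le
  have hκ0 : 0 < κ := by
    rw [hκ]
    have : √(δ * (1 - δ)) < 1 / 2 := by
      rw [Real.sqrt_lt' (by norm_num)]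
      nlinarith
    linarith
  have hκ1 : κ < 1 / 2 := by
    rw [hκ]
    linarith
  -- values slightly below
  have below : ∀ x : ℝ, 0 < x → x < 1 / 2 → ∃ y : ℝ, 0 < y ∧ y < x ∧
      Real.binEntropy x - ε ≤ Real.binEntropy y := by
    intro x hx0 hx1
    have hc : ∀ᶠ t in 𝓝 x, Real.binEntropy x - ε < Real.binEntropy t :=
      (Real.binEntropy_continuous.tendsto x).eventually (lt_mem_nhds (by linarith))
    obtain ⟨r, hr, hball⟩ := Metric.eventually_nhds_iff.1 hc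
    refine ⟨max (x / 2) (x - r / 2), ?_, ?_, ?_⟩
    · exact lt_of_lt_of_le (by linarith) (le_max_left _ _)
    · exact max_lt (by linarith) (by linarith)
    · apply le_of_lt
      apply hball
      rw [Real.dist_eq, abs_sub_comm, abs_of_nonneg]
      · have := le_max_right (x / 2) (x - r / 2)
        linarith
      · have : max (x / 2) (x - r / 2) < x := max_lt (by linarith) (by linarith)
        linarith
  obtain ⟨δ₂, a0, a1, a2⟩ := below δ h0 h1
  obtain ⟨κ₂, b0, b1, b2⟩ := below κ hκ0 hκ1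
  have mono : ∀ x y : ℝ, 0 ≤ x → x ≤ y → y ≤ 1 / 2 → Real.binEntropy x ≤ Real.binEntropy y := by
    intro x y hx hxy hy
    rcases hxy.eq_or_lt with h | h
    · rw [h]
    · exact (Real.binEntropy_strictMonoOn ⟨hx, by norm_num; linarith⟩
        ⟨by linarith, by norm_num; linarith⟩ h).le
  have hgap : 0 < (1 - (κ₂ + κ)) ^ 2 - 4 * (δ * (1 - δ)) := by
    have e1 : 4 * (δ * (1 - δ)) = (1 - 2 * κ) ^ 2 := by
      have e2 : (1 - 2 * κ) ^ 2 = 4 * √(δ * (1 - δ)) ^ 2 := by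
        rw [hκ]
        ring
      rw [e2, hss]
    rw [e1]
    have : 0 < 1 - 2 * κ := by linarith
    nlinarith
  have hn1 : ∀ c : ℝ, ∀ᶠ n : ℕ in atTop, c ≤ (n : ℝ) := fun c =>
    tendsto_natCast_atTop_atTop.eventually_ge_atTop c
  filter_upwards [eventually_ge_atTop 1, hn1 (2 / ((δ - δ₂) / 2)), hn1 (1 / ((κ - κ₂) / 2)),
    hn1 (4 * δ / ((1 - (κ₂ + κ)) ^ 2 - 4 * (δ * (1 - δ)))), hn1 (1 / δ₂), hn1 (1 / κ₂)]
    with n g0 g1 g2 g3 g4 g5
  have hn : (0 : ℝ) < n := by exact_mod_cast g0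
  rw [div_le_iff₀ (by linarith)] at g1
  rw [div_le_iff₀ (by linarith)] at g2
  rw [div_le_iff₀ hgap] at g3
  rw [div_le_iff₀ a0] at g4
  rw [div_le_iff₀ b0] at g5
  obtain ⟨q, hq⟩ : ∃ q : ℕ, q = ⌊(δ₂ + δ) / 2 * n / 2⌋₊ := ⟨_, rfl⟩
  obtain ⟨k₀, hk₀⟩ : ∃ k₀ : ℕ, k₀ = ⌊(κ₂ + κ) / 2 * n⌋₊ := ⟨_, rfl⟩
  have q1 : (q : ℝ) ≤ (δ₂ + δ) / 2 * n / 2 := by
    rw [hq]
    exact Nat.floor_le (by positivity)
  have q2 : (δ₂ + δ) / 2 * n / 2 < q + 1 := by
    rw [hq]
    exact Nat.lt_floor_add_one _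
  have k1 : (k₀ : ℝ) ≤ (κ₂ + κ) / 2 * n := by
    rw [hk₀]
    exact Nat.floor_le (by positivity)
  have k2 : (κ₂ + κ) / 2 * n < k₀ + 1 := by
    rw [hk₀]
    exact Nat.lt_floor_add_one _
  have dle : ((2 * q : ℕ) : ℝ) ≤ (δ₂ + δ) / 2 * n := by
    push_cast
    linarith
  have dge : δ₂ * n ≤ ((2 * q : ℕ) : ℝ) := by
    push_cast
    nlinarith
  have kge : κ₂ * n ≤ (k₀ : ℝ) := by
    nlinarith
  have d1 : 1 ≤ 2 * q := by
    have : (1 : ℝ) ≤ ((2 * q : ℕ) : ℝ) := by linarith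
    exact_mod_cast this
  have kk1 : 1 ≤ k₀ := by
    have : (1 : ℝ) ≤ (k₀ : ℝ) := by linarith
    exact_mod_cast this
  have d2n : 2 * (2 * q) ≤ n := by
    have : (2 : ℝ) * ((2 * q : ℕ) : ℝ) ≤ n := by nlinarith
    exact_mod_cast this
  have k2n : 2 * k₀ ≤ n := by
    have : (2 : ℝ) * (k₀ : ℝ) ≤ n := by nlinarith
    exact_mod_cast this
  refine ⟨2 * q, k₀, d2n, even_two_mul q, k2n, ?_, d1, ?_, ?_, ?_⟩
  · rw [Nat.lt_ceil]
    refine lt_of_le_of_lt dle ?_
    exact mul_lt_mul_of_pos_right (by linarith) hn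
  · intro i hi
    have hi' : (i : ℝ) ≤ (κ₂ + κ) / 2 * n := by
      have : (i : ℝ) ≤ k₀ := by exact_mod_cast hi.le
      linarith
    have e1 : ((2 * q : ℕ) : ℝ) * ((n : ℝ) - ((2 * q : ℕ) : ℝ) + 1) ≤ δ * n * (n - δ * n + 1) := by
      have e2 : ((2 * q : ℕ) : ℝ) ≤ δ * n := dle.trans
        (mul_le_mul_of_nonneg_right (by linarith) hn.le)
      have e3 : δ * n ≤ 1 / 2 * n := mul_le_mul_of_nonneg_right h1.le hn.le
      nlinarith
    have e4 : 4 * (δ * n * (n - δ * n + 1)) ≤ ((1 - (κ₂ + κ)) * n) ^ 2 := by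
      have : 0 ≤ (((1 - (κ₂ + κ)) ^ 2 - 4 * (δ * (1 - δ))) * n - 4 * δ) * n := by
        apply mul_nonneg _ hn.le
        linarith
      nlinarith
    have e5 : 0 ≤ (1 - (κ₂ + κ)) * n := by
      apply mul_nonneg _ hn.le
      linarith
    calc 2 * √(((2 * q : ℕ) : ℝ) * ((n : ℝ) - ((2 * q : ℕ) : ℝ) + 1))
        = √(4 * (((2 * q : ℕ) : ℝ) * ((n : ℝ) - ((2 * q : ℕ) : ℝ) + 1))) := by
          have sq4 : ∀ x : ℝ, 2 * √x = √(4 * x) := fun x => by
            rw [Real.sqrt_mul (by norm_num : (0 : ℝ) ≤ 4) x, show √(4 : ℝ) = 2 by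
              rw [show (4 : ℝ) = 2 ^ 2 by norm_num, Real.sqrt_sq (by norm_num)]]
          exact sq4 _
      _ ≤ √(((1 - (κ₂ + κ)) * n) ^ 2) := Real.sqrt_le_sqrt (by linarith)
      _ = (1 - (κ₂ + κ)) * n := Real.sqrt_sq e5
      _ ≤ (n : ℝ) - 2 * i := by linarith
  · have e1 := LS.choose_ge (n := n) (j := 2 * q) d1 (by omega)
    refine le_trans (Real.exp_le_exp.2 ?_) e1
    apply mul_le_mul_of_nonneg_left _ hn.le
    refine a2.trans (mono _ _ a0.le ?_ ?_)
    · rw [le_div_iff₀ hn]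
      exact dge
    · rw [div_le_iff₀ hn]
      have : (2 : ℝ) * ((2 * q : ℕ) : ℝ) ≤ n := by exact_mod_cast d2n
      linarith
  · have e1 := LS.choose_ge (n := n) (j := k₀) kk1 (by omega)
    refine le_trans (Real.exp_le_exp.2 ?_) e1
    apply mul_le_mul_of_nonneg_left _ hn.le
    refine b2.trans (mono _ _ b0.le ?_ ?_)
    · rw [le_div_iff₀ hn]
      exact kge
    · rw [div_le_iff₀ hn]
      have : (2 : ℝ) * (k₀ : ℝ) ≤ n := by exact_mod_cast k2n
      linarith

/-- **Containers for codes.** -/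
theorem cont {δ ε : ℝ} (h0 : 0 < δ) (h1 : δ < 1 / 2) (hε : 0 < ε) :
    ∀ᶠ n : ℕ in atTop, ∃ K : Finset (Finset (Fin n → Bool)),
      (K.card : ℝ) ≤ Real.exp (Real.exp ((Real.log 2 - Real.binEntropy δ + ε) * n)) ∧
      (∀ B ∈ K, (B.card : ℝ) ≤ Real.exp ((Real.log 2 -
        (Real.binEntropy (1 / 2 - √(δ * (1 - δ))) + Real.binEntropy δ - Real.log 2) / 2 + ε) * n)) ∧
      ∀ C : Finset (Fin n → Bool), IsCode ⌈δ * n⌉₊ C → ∃ B ∈ K, C ⊆ B := by
  obtain ⟨η, hη⟩ : ∃ η : ℝ, η = Real.binEntropy (1 / 2 - √(δ * (1 - δ))) := ⟨_, rfl⟩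
  obtain ⟨θ, hθ⟩ : ∃ θ : ℝ, θ = Real.binEntropy δ := ⟨_, rfl⟩
  rw [← hη, ← hθ]
  have hη2 : η ≤ Real.log 2 := by
    rw [hη]
    exact Real.binEntropy_le_log_two
  filter_upwards [params h0 h1 (half_pos hε), ev_poly 8 (half_pos hε), eventually_ge_atTop 1]
    with n hpar hpoly hn1
  obtain ⟨d, k₀, hd, he, hk, hdδ, hd1, hi, hC, hCk⟩ := hpar
  rw [← hθ] at hC
  rw [← hη] at hCk
  have hn : (1 : ℝ) ≤ n := by exact_mod_cast hn1
  have hcd : (0 : ℝ) < n.choose d := by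
    exact_mod_cast Nat.choose_pos (by omega)
  have hck : (0 : ℝ) < n.choose k₀ := by
    exact_mod_cast Nat.choose_pos (by omega)
  have hcd1 : (1 : ℝ) ≤ n.choose d := by
    exact_mod_cast Nat.choose_pos (by omega)
  have hcd2 : (n.choose d : ℝ) ≤ 2 ^ n := by
    exact_mod_cast Nat.choose_le_two_pow n d
  have hck2 : (n.choose k₀ : ℝ) ≤ 2 ^ n := by
    exact_mod_cast Nat.choose_le_two_pow n k₀
  have h2n : (0 : ℝ) < 2 ^ n := by positivity
  obtain ⟨L, hL⟩ : ∃ L : ℝ, L = √(2 ^ n * (n.choose d : ℝ) / (n.choose k₀ : ℝ)) := ⟨_, rfl⟩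
  obtain ⟨β, hβ⟩ : ∃ β : ℝ, β = (n.choose d : ℝ) / 2 ^ (n + 1) := ⟨_, rfl⟩
  obtain ⟨N₀, hN₀⟩ : ∃ N₀ : ℝ, N₀ = 2 * 2 ^ n * L / n.choose d := ⟨_, rfl⟩
  have hβ0 : 0 < β := by
    rw [hβ]
    positivity
  have hβ1 : β ≤ 1 := by
    rw [hβ, div_le_one (by positivity), pow_succ]
    linarith
  have hL1 : 1 ≤ L := by
    rw [hL, Real.one_le_sqrt, le_div_iff₀ hck]
    nlinarith
  have hN2 : 2 ≤ N₀ := by
    rw [hN₀, le_div_iff₀ hcd]
    nlinarith
  obtain ⟨τ, hτ⟩ : ∃ τ : ℕ, τ = ⌈(n : ℝ) / β⌉₊ := ⟨_, rfl⟩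
  have hτ1 : (n : ℝ) ≤ β * τ := by
    have : (n : ℝ) / β ≤ τ := by
      rw [hτ]
      exact Nat.le_ceil _
    rw [div_le_iff₀ hβ0] at this
    linarith
  have hτ2 : (τ : ℝ) ≤ n / β + 1 := by
    rw [hτ]
    exact (Nat.ceil_lt_add_one (by positivity)).le
  have hcu : ((univ : Finset (Fin n → Bool)).card : ℝ) = 2 ^ n := by simp
  obtain ⟨K, hK1, hK2, hK3⟩ := containers (fun u v : Fin n → Bool => hammingDist u v = d)
    (fun v h => by
      simp only [hammingDist_self] at h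
      omega) β N₀ hβ0 hβ1 (by linarith)
    (fun A hA => by
      have hne : A.Nonempty := by
        rw [Finset.nonempty_iff_ne_empty]
        rintro rfl
        simp at hA
        linarith
      obtain ⟨v, hv, hv2⟩ := degree n d k₀ hd he hk hi A hne (by
        rw [← hL, ← hN₀]
        exact hA)
      exact ⟨v, hv, by rw [hβ]; exact hv2⟩)
    _ (univ : Finset (Fin n → Bool)) rfl τ (by
      rw [hcu]
      have e1 : (1 - β) ^ τ ≤ Real.exp (-n) := by
        calc (1 - β) ^ τ ≤ (Real.exp (-β)) ^ τ := by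
              apply pow_le_pow_left₀ (by linarith)
              have := Real.add_one_le_exp (-β)
              linarith
          _ = Real.exp (-(β * τ)) := by
              rw [← Real.exp_nat_mul]
              congr 1
              ring
          _ ≤ Real.exp (-n) := Real.exp_le_exp.2 (by linarith)
      have e2 : (2 : ℝ) ^ n ≤ Real.exp n := by
        calc (2 : ℝ) ^ n ≤ (Real.exp 1) ^ n := by
              apply pow_le_pow_left₀ (by norm_num)
              have := Real.add_one_le_exp (1 : ℝ)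
              linarith
          _ = Real.exp n := by
              rw [← Real.exp_nat_mul, mul_one]
      calc (2 : ℝ) ^ n * (1 - β) ^ τ ≤ Real.exp n * Real.exp (-n) :=
            mul_le_mul e2 e1 (pow_nonneg (by linarith) _) (Real.exp_pos _).le
        _ = 1 := by rw [← Real.exp_add]; simp
        _ < N₀ := by linarith)
  -- bounds for the parameters
  have t1 : (n : ℝ) / β + 1 ≤ 4 * ((n : ℝ) + 1) ^ 2 * Real.exp ((Real.log 2 - θ + ε / 2) * n) := by
    have e1 : (n : ℝ) / β = 2 * n * 2 ^ n / n.choose d := by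
      rw [hβ, pow_succ]
      field_simp
    have e2 : (2 : ℝ) ^ n / n.choose d ≤ (n + 1) * Real.exp ((Real.log 2 - θ + ε / 2) * n) := by
      rw [div_le_iff₀ hcd]
      have e3 : (2 : ℝ) ^ n = Real.exp (Real.log 2 * n) := by
        rw [mul_comm, Real.exp_nat_mul, Real.exp_log (by norm_num)]
      calc (2 : ℝ) ^ n = Real.exp ((Real.log 2 - θ + ε / 2) * n) *
            Real.exp (n * (θ - ε / 2)) := by
            rw [e3, ← Real.exp_add]
            congr 1
            ring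
        _ ≤ Real.exp ((Real.log 2 - θ + ε / 2) * n) * ((n + 1) * (n.choose d : ℝ)) :=
            mul_le_mul_of_nonneg_left hC (Real.exp_pos _).le
        _ = _ := by ring
    have e4 : 1 ≤ Real.exp ((Real.log 2 - θ + ε / 2) * n) := by
      apply Real.one_le_exp
      have : θ ≤ Real.log 2 := by
        rw [hθ]
        exact Real.binEntropy_le_log_two
      apply mul_nonneg _ (by linarith)
      linarith
    obtain ⟨x, hx⟩ : ∃ x : ℝ, x = Real.exp ((Real.log 2 - θ + ε / 2) * n) := ⟨_, rfl⟩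
    rw [← hx] at e2 e4 ⊢
    rw [e1]
    calc 2 * (n : ℝ) * 2 ^ n / n.choose d + 1 = 2 * n * (2 ^ n / n.choose d) + 1 := by ring
      _ ≤ 2 * n * ((n + 1) * x) + 1 := by gcongr
      _ ≤ _ := by nlinarith [mul_nonneg (by linarith : (0 : ℝ) ≤ n) (by linarith : (0 : ℝ) ≤ x)]
  have t2 : (τ : ℝ) ≤ 4 * ((n : ℝ) + 1) ^ 2 * Real.exp ((Real.log 2 - θ + ε / 2) * n) :=
    hτ2.trans t1
  have hlog2 : Real.log 2 ≤ 1 := by
    have := Real.log_two_lt_d9
    linarith
  refine ⟨K, ?_, ?_, ?_⟩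
  · have e1 : (K.card : ℝ) ≤ ((2 : ℝ) ^ n + 1) ^ τ := by
      have e2 : (univ : Finset (Fin n → Bool)).card = 2 ^ n := by simp
      rw [e2] at hK1
      exact_mod_cast hK1
    refine e1.trans ?_
    have e3 : (2 : ℝ) ^ n + 1 ≤ Real.exp (n + 1) := by
      have e4 : (2 : ℝ) ^ n ≤ Real.exp n := by
        calc (2 : ℝ) ^ n ≤ (Real.exp 1) ^ n := by
              apply pow_le_pow_left₀ (by norm_num)
              have := Real.add_one_le_exp (1 : ℝ)
              linarith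
          _ = Real.exp n := by
              rw [← Real.exp_nat_mul, mul_one]
      have e5 : 1 ≤ Real.exp (n : ℝ) := Real.one_le_exp (by linarith)
      have e6 : (2 : ℝ) ≤ Real.exp 1 := by
        have := Real.add_one_le_exp (1 : ℝ)
        linarith
      rw [Real.exp_add]
      nlinarith
    calc ((2 : ℝ) ^ n + 1) ^ τ ≤ (Real.exp (n + 1)) ^ τ := by
          apply pow_le_pow_left₀ (by positivity) e3
      _ = Real.exp (τ * (n + 1)) := by rw [← Real.exp_nat_mul]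
      _ ≤ _ := by
          apply Real.exp_le_exp.2
          calc (τ : ℝ) * (n + 1) ≤ (4 * ((n : ℝ) + 1) ^ 2 *
                Real.exp ((Real.log 2 - θ + ε / 2) * n)) * (n + 1) := by gcongr
            _ = (4 * ((n : ℝ) + 1) ^ 3) * Real.exp ((Real.log 2 - θ + ε / 2) * n) := by ring
            _ ≤ Real.exp (ε / 2 * n) * Real.exp ((Real.log 2 - θ + ε / 2) * n) := by
                apply mul_le_mul_of_nonneg_right _ (Real.exp_pos _).le
                have : (0 : ℝ) ≤ ((n : ℝ) + 1) ^ 3 := by positivity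
                linarith
            _ = _ := by
                rw [← Real.exp_add]
                congr 1
                ring
  · intro B hB
    refine (hK2 B hB).trans ?_
    obtain ⟨y, hy⟩ : ∃ y : ℝ, y = Real.exp ((Real.log 2 - (η + θ - Real.log 2) / 2 + ε / 2) * n) :=
      ⟨_, rfl⟩
    have e1 : N₀ ≤ 2 * (n + 1) * y := by
      have e2 : N₀ ^ 2 ≤ (2 * (n + 1) * y) ^ 2 := by
        have e3 : N₀ ^ 2 = 4 * (2 ^ n) ^ 3 / (n.choose d * n.choose k₀) := by
          rw [hN₀, div_pow, mul_pow, hL, Real.sq_sqrt (by positivity)]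
          field_simp
          ring
        rw [e3, div_le_iff₀ (by positivity)]
        have e4 : (2 : ℝ) ^ n = Real.exp (Real.log 2 * n) := by
          rw [mul_comm, Real.exp_nat_mul, Real.exp_log (by norm_num)]
        have e5 : ((2 : ℝ) ^ n) ^ 3 = y ^ 2 * (Real.exp (n * (θ - ε / 2)) *
            Real.exp (n * (η - ε / 2))) := by
          rw [e4, hy, ← Real.exp_nat_mul, ← Real.exp_nat_mul, ← Real.exp_add, ← Real.exp_add]
          congr 1
          push_cast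
          ring
        have e6 : Real.exp (n * (θ - ε / 2)) * Real.exp (n * (η - ε / 2)) ≤
            ((n + 1) * (n.choose d : ℝ)) * ((n + 1) * (n.choose k₀ : ℝ)) :=
          mul_le_mul hC hCk (Real.exp_pos _).le (by positivity)
        calc 4 * ((2 : ℝ) ^ n) ^ 3 = 4 * (y ^ 2 * (Real.exp (n * (θ - ε / 2)) *
              Real.exp (n * (η - ε / 2)))) := by rw [e5]
          _ ≤ 4 * (y ^ 2 * (((n + 1) * (n.choose d : ℝ)) * ((n + 1) * (n.choose k₀ : ℝ)))) := by
              gcongr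
          _ = _ := by ring
      have e7 : 0 ≤ 2 * ((n : ℝ) + 1) * y := by
        rw [hy]
        positivity
      exact abs_le_of_sq_le_sq' e2 e7 |>.2
    have e8 : (τ : ℝ) ≤ 4 * ((n : ℝ) + 1) ^ 2 * y := by
      refine t2.trans ?_
      apply mul_le_mul_of_nonneg_left _ (by positivity)
      rw [hy]
      apply Real.exp_le_exp.2
      apply mul_le_mul_of_nonneg_right _ (by linarith)
      have e9 : (0 : ℝ) ≤ θ := by
        rw [hθ]
        exact Real.binEntropy_nonneg h0.le (by linarith)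
      linarith
    calc N₀ + τ ≤ 2 * (n + 1) * y + 4 * ((n : ℝ) + 1) ^ 2 * y := add_le_add e1 e8
      _ ≤ (8 * ((n : ℝ) + 1) ^ 3) * y := by
          have hy0 : 0 ≤ y := by
            rw [hy]
            positivity
          rw [← add_mul]
          apply mul_le_mul_of_nonneg_right _ hy0
          nlinarith [sq_nonneg ((n : ℝ) + 1)]
      _ ≤ Real.exp (ε / 2 * n) * y := by
          apply mul_le_mul_of_nonneg_right hpoly
          rw [hy]
          positivity
      _ = _ := by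
          rw [hy, ← Real.exp_add]
          congr 1
          ring
  · intro C hC'
    refine hK3 C (Finset.subset_univ _) ?_
    intro x hx y hy hxy
    by_cases hne : x = y
    · rw [hne, hammingDist_self] at hxy
      omega
    · have := hC' x hx y hy hne
      omega

end Pool.Agent.H384.CC
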