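import Mathlib
import Pool.Agent.H384.CC.Asy

/-!
MP_0430e4_lc (helper384): the number of codes, and the codes in a random set of words.
-/

set_option autoImplicit false

namespace Pool.Agent.H384.CC

open Finset Filter Topology Pool.Agent.Y570

lemma choose_upper (b M : ℕ) (hM : 1 ≤ M) (B : ℝ) (hb : (b : ℝ) ≤ B) :
    (b.choose M : ℝ) ≤ (Real.exp 1 * B / M) ^ M := by
  have hM0 : (0 : ℝ) < M := by exact_mod_cast hM
  have hb0 : (0 : ℝ) ≤ b := Nat.cast_nonneg _
  have h1 : (b.choose M : ℝ) ≤ (b : ℝ) ^ M / M.factorial := Nat.choose_le_pow_div M b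
  have h2 := Real.pow_div_factorial_le_exp (M : ℝ) hM0.le M
  have hf : (0 : ℝ) < M.factorial := by exact_mod_cast M.factorial_pos
  rw [div_le_iff₀ hf] at h2
  have h3 : (Real.exp 1) ^ M = Real.exp M := by rw [← Real.exp_nat_mul, mul_one]
  refine h1.trans ?_
  rw [div_le_iff₀ hf, div_pow, mul_pow, h3, div_mul_eq_mul_div, le_div_iff₀ (by positivity)]
  calc (b : ℝ) ^ M * (M : ℝ) ^ M ≤ B ^ M * (Real.exp M * M.factorial) := by
        apply mul_le_mul (pow_le_pow_left₀ hb0 hb M) h2 (by positivity)
        exact pow_nonneg (hb0.trans hb) _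
    _ = _ := by ring

lemma choose_lower : ∀ M N : ℕ, 1 ≤ M → M ≤ N → ((N : ℝ) / M) ^ M ≤ N.choose M := by
  intro M
  induction M with
  | zero => intro N h; omega
  | succ M ih =>
    intro N _ hN
    obtain ⟨K, rfl⟩ : ∃ K, N = K + 1 := ⟨N - 1, by omega⟩
    have hM0 : (0 : ℝ) < (M : ℝ) + 1 := by positivity
    have h1 : ((K + 1).choose (M + 1) : ℝ) = ((K : ℝ) + 1) / (M + 1) * K.choose M := by
      have h2 := Nat.add_one_mul_choose_eq K M
      have h3 : ((K : ℝ) + 1) * K.choose M = (K + 1).choose (M + 1) * ((M : ℝ) + 1) := by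
        exact_mod_cast h2
      rw [div_mul_eq_mul_div, h3]
      field_simp
    rw [h1]
    push_cast
    rcases Nat.eq_zero_or_pos M with h0 | h0
    · subst h0
      simp
    · have h4 := ih K h0 (by omega)
      have hM1 : (0 : ℝ) < M := by exact_mod_cast h0
      have hKM : (M : ℝ) ≤ K := by
        have : M ≤ K := by omega
        exact_mod_cast this
      have h5 : ((K : ℝ) + 1) / (M + 1) ≤ (K : ℝ) / M := by
        rw [div_le_div_iff₀ hM0 hM1]
        nlinarith
      rw [pow_succ, mul_comm]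
      apply mul_le_mul_of_nonneg_left _ (by positivity)
      exact (pow_le_pow_left₀ (by positivity) h5 M).trans h4

open Classical in
/-- the codes with `M` words -/
noncomputable def codes (n d M : ℕ) : Finset (Finset (Fin n → Bool)) :=
  (Finset.powersetCard M univ).filter fun C => IsCode d C

lemma mem_codes {n d M : ℕ} {C : Finset (Fin n → Bool)} :
    C ∈ codes n d M ↔ C.card = M ∧ IsCode d C := by
  classical
  unfold codes
  rw [Finset.mem_filter, Finset.mem_powersetCard]
  simp

lemma card_cube (n : ℕ) : ((univ : Finset (Fin n → Bool)).card : ℝ) = 2 ^ n := by simp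

/-- few codes above the bound of Gilbert and Varshamov -/
theorem few {δ ε : ℝ} (h0 : 0 < δ) (h1 : δ < 1 / 2) (hε : 0 < ε) :
    ∀ᶠ n : ℕ in atTop, ∀ M : ℕ,
      Real.exp ((Real.log 2 - Real.binEntropy δ + ε) * n) ≤ M →
      ((codes n ⌈δ * n⌉₊ M).card : ℝ) ≤
        Real.exp (-(((Real.binEntropy (1 / 2 - √(δ * (1 - δ))) + Real.binEntropy δ -
          Real.log 2) / 2 - ε) * n * M)) * ((2 ^ n).choose M : ℝ) := by
  classical
  obtain ⟨η, hη⟩ : ∃ η : ℝ, η = Real.binEntropy (1 / 2 - √(δ * (1 - δ))) := ⟨_, rfl⟩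
  obtain ⟨θ, hθ⟩ : ∃ θ : ℝ, θ = Real.binEntropy δ := ⟨_, rfl⟩
  have hcont := cont h0 h1 (half_pos hε)
  rw [← hη, ← hθ] at hcont ⊢
  filter_upwards [hcont, tendsto_natCast_atTop_atTop.eventually_ge_atTop (4 / ε),
    eventually_ge_atTop 1] with n hK hn hn1 M hM
  obtain ⟨K, hK1, hK2, hK3⟩ := hK
  have hn0 : (1 : ℝ) ≤ n := by exact_mod_cast hn1
  rw [div_le_iff₀ hε] at hn
  have hM0 : (0 : ℝ) < M := lt_of_lt_of_le (Real.exp_pos _) hM
  have hM1 : 1 ≤ M := by exact_mod_cast hM0
  by_cases hMn : M ≤ 2 ^ n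
  · obtain ⟨B, hB⟩ : ∃ B : ℝ, B = Real.exp ((Real.log 2 - (η + θ - Real.log 2) / 2 + ε / 2) * n) :=
      ⟨_, rfl⟩
    rw [← hB] at hK2
    have e1 : (codes n ⌈δ * n⌉₊ M) ⊆ K.biUnion (fun b => Finset.powersetCard M b) := by
      intro C hC
      rw [mem_codes] at hC
      obtain ⟨b, hb, hCb⟩ := hK3 C hC.2
      rw [Finset.mem_biUnion]
      exact ⟨b, hb, Finset.mem_powersetCard.2 ⟨hCb, hC.1⟩⟩
    have e2 : ((codes n ⌈δ * n⌉₊ M).card : ℝ) ≤ K.card * (Real.exp 1 * B / M) ^ M := by
      have e3 := (Finset.card_le_card e1).trans Finset.card_biUnion_le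
      have e4 : ((∑ b ∈ K, (Finset.powersetCard M b).card : ℕ) : ℝ) ≤
          ∑ _b ∈ K, (Real.exp 1 * B / M) ^ M := by
        push_cast
        refine Finset.sum_le_sum fun b hb => ?_
        rw [Finset.card_powersetCard]
        exact choose_upper _ _ hM1 _ (hK2 b hb)
      rw [Finset.sum_const, nsmul_eq_mul] at e4
      exact le_trans (by exact_mod_cast e3) e4
    have e5 : (K.card : ℝ) ≤ (Real.exp 1) ^ M := by
      refine hK1.trans ?_
      rw [← Real.exp_nat_mul, mul_one]
      apply Real.exp_le_exp.2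
      refine le_trans ?_ hM
      apply Real.exp_le_exp.2
      apply mul_le_mul_of_nonneg_right _ (by linarith)
      linarith
    have hB0 : 0 < B := by
      rw [hB]
      positivity
    have e6 : Real.exp 1 * (Real.exp 1 * B / M) ≤
        Real.exp (-(((η + θ - Real.log 2) / 2 - ε) * n)) * (2 ^ n / M) := by
      have e7 : (2 : ℝ) ^ n = Real.exp (Real.log 2 * n) := by
        rw [mul_comm, Real.exp_nat_mul, Real.exp_log (by norm_num)]
      rw [← mul_div_assoc, ← mul_div_assoc]
      apply div_le_div_of_nonneg_right _ hM0.le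
      rw [hB, e7, ← Real.exp_add, ← Real.exp_add, ← Real.exp_add]
      apply Real.exp_le_exp.2
      nlinarith
    calc ((codes n ⌈δ * n⌉₊ M).card : ℝ) ≤ K.card * (Real.exp 1 * B / M) ^ M := e2
      _ ≤ (Real.exp 1) ^ M * (Real.exp 1 * B / M) ^ M :=
          mul_le_mul_of_nonneg_right e5 (by positivity)
      _ = (Real.exp 1 * (Real.exp 1 * B / M)) ^ M := by rw [mul_pow]
      _ ≤ (Real.exp (-(((η + θ - Real.log 2) / 2 - ε) * n)) * (2 ^ n / M)) ^ M :=
          pow_le_pow_left₀ (by positivity) e6 M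
      _ = Real.exp (-(((η + θ - Real.log 2) / 2 - ε) * n * M)) * ((2 ^ n / M) ^ M) := by
          rw [mul_pow, ← Real.exp_nat_mul]
          congr 2
          ring
      _ ≤ _ := by
          apply mul_le_mul_of_nonneg_left _ (Real.exp_pos _).le
          have := choose_lower M (2 ^ n) hM1 hMn
          push_cast at this
          exact this
  · have e1 : codes n ⌈δ * n⌉₊ M = ∅ := by
      rw [Finset.eq_empty_iff_forall_notMem]
      intro C hC
      rw [mem_codes] at hC
      have := Finset.card_le_univ C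
      simp at this
      omega
    rw [e1]
    simp only [Finset.card_empty, Nat.cast_zero]
    positivity

/-- the words near a word -/
lemma ball_card (n d : ℕ) (c : Fin n → Bool) :
    ((univ.filter fun x : Fin n → Bool => hammingDist c x < d).card : ℝ) ≤ LS.vol n d := by
  classical
  have h1 : (univ.filter fun x : Fin n → Bool => hammingDist c x < d) ⊆
      (range d).biUnion fun w => univ.filter fun x : Fin n → Bool => hammingDist c x = w := by
    intro x hx
    rw [Finset.mem_filter] at hx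
    rw [Finset.mem_biUnion]
    exact ⟨_, Finset.mem_range.2 hx.2, Finset.mem_filter.2 ⟨Finset.mem_univ _, rfl⟩⟩
  have h2 := (Finset.card_le_card h1).trans Finset.card_biUnion_le
  have h3 : ∀ w, (univ.filter fun x : Fin n → Bool => hammingDist c x = w).card ≤ n.choose w := by
    intro w
    have h4 : (Finset.powersetCard w (univ : Finset (Fin n))).card = n.choose w := by
      rw [Finset.card_powersetCard, Finset.card_univ, Fintype.card_fin]
    rw [← h4]
    refine Finset.card_le_card_of_injOn (fun x => univ.filter fun i => c i ≠ x i) ?_ ?_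
    · intro x hx
      rw [Finset.mem_coe, Finset.mem_filter] at hx
      rw [Finset.mem_coe, Finset.mem_powersetCard]
      exact ⟨Finset.subset_univ _, hx.2⟩
    · intro x _ y _ hxy
      funext i
      have h5 : (i ∈ univ.filter fun i => c i ≠ x i) ↔ (i ∈ univ.filter fun i => c i ≠ y i) := by
        have h' : (univ.filter fun i => c i ≠ x i) = (univ.filter fun i => c i ≠ y i) := hxy
        rw [h']
      simp only [Finset.mem_filter, Finset.mem_univ, true_and] at h5
      cases hc : c i <;> cases hx : x i <;> cases hy : y i <;> simp_all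
  have h6 : (univ.filter fun x : Fin n → Bool => hammingDist c x < d).card ≤
      ∑ w ∈ range d, n.choose w := h2.trans (Finset.sum_le_sum fun w _ => h3 w)
  unfold LS.vol
  exact_mod_cast h6

/-- one more word -/
lemma step (n d M : ℕ) (hd : 1 ≤ d) :
    ((codes n d M).card : ℝ) * (2 ^ n - M * LS.vol n d) ≤
      ((M : ℝ) + 1) * (codes n d (M + 1)).card := by
  classical
  obtain ⟨P, hP⟩ : ∃ P, P = (codes n d M).sigma
      (fun C => univ.filter fun x : Fin n → Bool => ∀ c ∈ C, d ≤ hammingDist c x) := ⟨_, rfl⟩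
  obtain ⟨Q, hQ⟩ : ∃ Q, Q = (codes n d (M + 1)).sigma (fun C => C) := ⟨_, rfl⟩
  have h1 : P.card ≤ Q.card := by
    refine Finset.card_le_card_of_injOn
      (fun z => (⟨insert z.2 z.1, z.2⟩ : Σ _ : Finset (Fin n → Bool), (Fin n → Bool))) ?_ ?_
    · rintro ⟨C, x⟩ hz
      rw [Finset.mem_coe, hP, Finset.mem_sigma, Finset.mem_filter] at hz
      obtain ⟨hC, -, hx⟩ := hz
      simp only at hC hx
      rw [mem_codes] at hC
      rw [Finset.mem_coe, hQ, Finset.mem_sigma]
      refine ⟨?_, Finset.mem_insert_self _ _⟩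
      simp only
      rw [mem_codes]
      have hxC : x ∉ C := by
        intro h
        have := hx x h
        rw [hammingDist_self] at this
        omega
      refine ⟨by rw [Finset.card_insert_of_notMem hxC, hC.1], ?_⟩
      intro y hy z hz hyz
      rw [Finset.mem_insert] at hy hz
      rcases hy with rfl | hy
      · rcases hz with rfl | hz
        · exact absurd rfl hyz
        · rw [hammingDist_comm]
          exact hx z hz
      · rcases hz with rfl | hz
        · exact hx y hy
        · exact hC.2 y hy z hz hyz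
    · rintro ⟨C, x⟩ hz ⟨C', x'⟩ hz' heq
      rw [Finset.mem_coe, hP, Finset.mem_sigma, Finset.mem_filter] at hz hz'
      obtain ⟨hC, -, hx⟩ := hz
      obtain ⟨hC', -, hx'⟩ := hz'
      simp only at hC hx hC' hx' heq
      have hxC : x ∉ C := by
        intro h
        have := hx x h
        rw [hammingDist_self] at this
        omega
      have hxC' : x' ∉ C' := by
        intro h
        have := hx' x' h
        rw [hammingDist_self] at this
        omega
      rw [Sigma.mk.injEq] at heq
      obtain ⟨e1, e2⟩ := heq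
      have e2 : x = x' := eq_of_heq e2
      subst e2
      have e3 : C = C' := by
        rw [← Finset.erase_insert hxC, ← Finset.erase_insert hxC', e1]
      subst e3
      rfl
  have h2 : (Q.card : ℝ) = ((M : ℝ) + 1) * (codes n d (M + 1)).card := by
    rw [hQ, Finset.card_sigma]
    push_cast
    rw [Finset.sum_congr rfl (g := fun _ => ((M : ℝ) + 1)) (fun C hC => by
      rw [(mem_codes.1 hC).1]
      push_cast
      ring), Finset.sum_const, nsmul_eq_mul]
    ring
  have h3 : ((codes n d M).card : ℝ) * (2 ^ n - M * LS.vol n d) ≤ P.card := by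
    rw [hP, Finset.card_sigma]
    push_cast
    rw [← nsmul_eq_mul, ← Finset.sum_const]
    refine Finset.sum_le_sum fun C hC => ?_
    rw [mem_codes] at hC
    have h4 : (univ.filter fun x : Fin n → Bool => ¬ ∀ c ∈ C, d ≤ hammingDist c x) ⊆
        C.biUnion fun c => univ.filter fun x : Fin n → Bool => hammingDist c x < d := by
      intro x hx
      rw [Finset.mem_filter] at hx
      have := hx.2
      push Not at this
      obtain ⟨c, hc, hcx⟩ := this
      rw [Finset.mem_biUnion]
      exact ⟨c, hc, Finset.mem_filter.2 ⟨Finset.mem_univ _, hcx⟩⟩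
    have h5 := (Finset.card_le_card h4).trans Finset.card_biUnion_le
    have h6 : ((univ.filter fun x : Fin n → Bool => ¬ ∀ c ∈ C, d ≤ hammingDist c x).card : ℝ) ≤
        M * LS.vol n d := by
      calc ((univ.filter fun x : Fin n → Bool => ¬ ∀ c ∈ C, d ≤ hammingDist c x).card : ℝ)
          ≤ ((∑ c ∈ C, (univ.filter fun x : Fin n → Bool => hammingDist c x < d).card : ℕ) : ℝ) := by
            exact_mod_cast h5
        _ ≤ ∑ _c ∈ C, LS.vol n d := by
            push_cast
            exact Finset.sum_le_sum fun c _ => ball_card n d c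
        _ = M * LS.vol n d := by
            rw [Finset.sum_const, nsmul_eq_mul, hC.1]
    have h7 := Finset.card_filter_add_card_filter_not (s := (univ : Finset (Fin n → Bool)))
      (fun x => ∀ c ∈ C, d ≤ hammingDist c x)
    have h8 : ((univ.filter fun x : Fin n → Bool => ∀ c ∈ C, d ≤ hammingDist c x).card : ℝ) +
        ((univ.filter fun x : Fin n → Bool => ¬ ∀ c ∈ C, d ≤ hammingDist c x).card : ℝ) = 2 ^ n := by
      rw [← card_cube n]
      exact_mod_cast h7
    linarith
  rw [← h2]
  exact h3.trans (by exact_mod_cast h1)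

/-- the volume of the ball -/
lemma vol_bound {δ : ℝ} (h0 : 0 < δ) (h1 : δ < 1 / 2) (n : ℕ) (hn : 1 ≤ n) :
    LS.vol n ⌈δ * n⌉₊ ≤ Real.exp (n * Real.binEntropy δ) := by
  have hn0 : (0 : ℝ) < n := by exact_mod_cast hn
  refine LS.vol_le h0 h1.le n _ ?_ ?_
  · have : ⌈δ * n⌉₊ ≤ n := by
      rw [Nat.ceil_le]
      nlinarith
    omega
  · intro w hw
    have := Nat.lt_ceil.1 hw
    linarith

lemma vol_nonneg (n d : ℕ) : 0 ≤ LS.vol n d := by
  unfold LS.vol
  positivity

/-- many codes below the bound of Gilbert and Varshamov -/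
theorem many {δ ε : ℝ} (h0 : 0 < δ) (h1 : δ < 1 / 2) (hε : 0 < ε) (n : ℕ) (hn : 1 ≤ n) (M : ℕ)
    (hM : (M : ℝ) ≤ Real.exp ((Real.log 2 - Real.binEntropy δ - ε) * n)) :
    (1 - Real.exp (-(ε * n))) ^ M * ((2 ^ n).choose M : ℝ) ≤
      ((codes n ⌈δ * n⌉₊ M).card : ℝ) := by
  have hn0 : (1 : ℝ) ≤ n := by exact_mod_cast hn
  have hd : 1 ≤ ⌈δ * n⌉₊ := by
    rw [Nat.one_le_ceil_iff]
    positivity
  obtain ⟨q, hq⟩ : ∃ q : ℝ, q = 1 - Real.exp (-(ε * n)) := ⟨_, rfl⟩
  have hexp1 : Real.exp (-(ε * n)) < 1 := by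
    rw [Real.exp_lt_one_iff]
    have : 0 < ε * n := by positivity
    linarith
  have hq0 : 0 < q := by
    rw [hq]
    linarith
  rw [← hq]
  have key : ∀ m : ℕ, (m : ℝ) ≤ Real.exp ((Real.log 2 - Real.binEntropy δ - ε) * n) →
      q ^ m * ((2 ^ n).choose m : ℝ) ≤ ((codes n ⌈δ * n⌉₊ m).card : ℝ) := by
    intro m
    induction m with
    | zero =>
      intro _
      have : (codes n ⌈δ * n⌉₊ 0).card = 1 := by
        rw [Finset.card_eq_one]
        refine ⟨∅, ?_⟩
        ext C
        rw [mem_codes, Finset.card_eq_zero, Finset.mem_singleton]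
        constructor
        · exact fun h => h.1
        · intro h
          exact ⟨h, fun x hx => by rw [h] at hx; simp at hx⟩
      rw [this]
      simp
    | succ m ih =>
      intro hm
      push_cast at hm
      have h2 := ih (by linarith)
      have h3 := step n ⌈δ * n⌉₊ m hd
      have hm0 : (0 : ℝ) < (m : ℝ) + 1 := by positivity
      have h4 : q * 2 ^ n ≤ 2 ^ n - m * LS.vol n ⌈δ * n⌉₊ := by
        have e1 : (m : ℝ) * LS.vol n ⌈δ * n⌉₊ ≤
            Real.exp ((Real.log 2 - Real.binEntropy δ - ε) * n) *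
              Real.exp (n * Real.binEntropy δ) :=
          mul_le_mul (by linarith) (vol_bound h0 h1 n hn) (vol_nonneg _ _) (Real.exp_pos _).le
        have e2 : Real.exp ((Real.log 2 - Real.binEntropy δ - ε) * n) *
            Real.exp (n * Real.binEntropy δ) = Real.exp (-(ε * n)) * 2 ^ n := by
          have e3 : (2 : ℝ) ^ n = Real.exp (Real.log 2 * n) := by
            rw [mul_comm, Real.exp_nat_mul, Real.exp_log (by norm_num)]
          rw [e3, ← Real.exp_add, ← Real.exp_add]
          congr 1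
          ring
        rw [hq]
        linarith
      have h5 : ((2 ^ n).choose (m + 1) : ℝ) * ((m : ℝ) + 1) ≤ ((2 ^ n).choose m : ℝ) * 2 ^ n := by
        have := Nat.choose_succ_right_eq (2 ^ n) m
        have e1 : (2 ^ n).choose (m + 1) * (m + 1) ≤ (2 ^ n).choose m * 2 ^ n := by
          rw [this]
          exact Nat.mul_le_mul_left _ (Nat.sub_le _ _)
        exact_mod_cast e1
      have h6 : ((m : ℝ) + 1) * (q ^ (m + 1) * ((2 ^ n).choose (m + 1) : ℝ)) ≤
          ((m : ℝ) + 1) * ((codes n ⌈δ * n⌉₊ (m + 1)).card : ℝ) := by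
        calc ((m : ℝ) + 1) * (q ^ (m + 1) * ((2 ^ n).choose (m + 1) : ℝ))
            = q ^ (m + 1) * (((2 ^ n).choose (m + 1) : ℝ) * ((m : ℝ) + 1)) := by ring
          _ ≤ q ^ (m + 1) * (((2 ^ n).choose m : ℝ) * 2 ^ n) :=
              mul_le_mul_of_nonneg_left h5 (by positivity)
          _ = (q ^ m * ((2 ^ n).choose m : ℝ)) * (q * 2 ^ n) := by rw [pow_succ]; ring
          _ ≤ ((codes n ⌈δ * n⌉₊ m).card : ℝ) * (2 ^ n - m * LS.vol n ⌈δ * n⌉₊) :=
              mul_le_mul h2 h4 (by positivity) (Nat.cast_nonneg _)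
          _ ≤ _ := h3
      exact le_of_mul_le_mul_left h6 hm0
  exact key M hM

end Pool.Agent.H384.CC
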