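import Mathlib
import Pool.Agent.H384.CC.Ran

/-!
MP_0430e4_lc (helper384): the codes in a random set of words.
-/

set_option autoImplicit false

namespace Pool.Agent.H384.CC

open Finset Filter Topology Pool.Agent.Y570

/-- a code in a set of words with few close pairs -/
lemma dense_code {n : ℕ} (d : ℕ) (S : Finset (Fin n → Bool)) :
    ∃ C ⊆ S, IsCode d C ∧ (S.card : ℝ) ^ 2 ≤ 2 * C.card *
      (2 * (((S ×ˢ S).filter fun z => z.1 ≠ z.2 ∧ hammingDist z.1 z.2 < d).card : ℝ) + S.card) := by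
  classical
  obtain ⟨e, he⟩ : ∃ e : ℕ, e =
    ((S ×ˢ S).filter fun z => z.1 ≠ z.2 ∧ hammingDist z.1 z.2 < d).card := ⟨_, rfl⟩
  rw [← he]
  obtain ⟨deg, hdeg⟩ : ∃ deg : (Fin n → Bool) → ℕ, deg = fun x =>
    (S.filter fun y => x ≠ y ∧ hammingDist x y < d).card := ⟨_, rfl⟩
  have hsum : ∑ x ∈ S, deg x = e := by
    rw [he, hdeg, Finset.card_filter, Finset.sum_product]
    refine Finset.sum_congr rfl fun x _ => ?_
    simp only [Finset.card_filter]
  obtain ⟨T, hT⟩ : ∃ T, T = S.filter fun x => deg x * S.card ≤ 2 * e := ⟨_, rfl⟩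
  have hTS : T ⊆ S := by
    rw [hT]
    exact Finset.filter_subset _ _
  -- half of the words
  have hhalf : S.card ≤ 2 * T.card := by
    rcases Nat.eq_zero_or_pos e with h0 | h0
    · have : T = S := by
        rw [hT, Finset.filter_eq_self]
        intro x hx
        have h1 : deg x = 0 := by
          have := Finset.single_le_sum (f := deg) (fun _ _ => Nat.zero_le _) hx
          omega
        rw [h1]
        omega
      rw [this]
      omega
    · have h1 : (S.filter fun x => ¬ deg x * S.card ≤ 2 * e).card * (2 * e) ≤ e * S.card := by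
        calc (S.filter fun x => ¬ deg x * S.card ≤ 2 * e).card * (2 * e)
            = ∑ _x ∈ S.filter (fun x => ¬ deg x * S.card ≤ 2 * e), 2 * e := by
              rw [Finset.sum_const, smul_eq_mul]
          _ ≤ ∑ x ∈ S.filter (fun x => ¬ deg x * S.card ≤ 2 * e), deg x * S.card := by
              refine Finset.sum_le_sum fun x hx => ?_
              have := (Finset.mem_filter.1 hx).2
              omega
          _ ≤ ∑ x ∈ S, deg x * S.card :=
              Finset.sum_le_sum_of_subset (Finset.filter_subset _ _)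
          _ = e * S.card := by rw [← Finset.sum_mul, hsum]
      have h2 := Finset.card_filter_add_card_filter_not (s := S) (fun x => deg x * S.card ≤ 2 * e)
      rw [← hT] at h2
      have h3 : (S.filter fun x => ¬ deg x * S.card ≤ 2 * e).card * 2 ≤ S.card := by
        have : e * ((S.filter fun x => ¬ deg x * S.card ≤ 2 * e).card * 2) ≤ e * S.card := by
          linarith
        exact Nat.le_of_mul_le_mul_left this h0
      omega
  -- a largest code
  obtain ⟨C, hC, hmax⟩ := Finset.exists_max_image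
    (T.powerset.filter fun C => IsCode d C) Finset.card
    ⟨∅, Finset.mem_filter.2 ⟨Finset.empty_mem_powerset _, fun x hx => by simp at hx⟩⟩
  rw [Finset.mem_filter, Finset.mem_powerset] at hC
  refine ⟨C, hC.1.trans hTS, hC.2, ?_⟩
  have hcover : T ⊆ C ∪ C.biUnion fun c => S.filter fun y => c ≠ y ∧ hammingDist c y < d := by
    intro x hx
    by_contra hcon
    rw [Finset.mem_union, Finset.mem_biUnion] at hcon
    push Not at hcon
    obtain ⟨hxC, hfar⟩ := hcon
    have hfar' : ∀ c ∈ C, d ≤ hammingDist c x := by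
      intro c hc
      by_contra hlt
      push Not at hlt
      apply hfar c hc
      rw [Finset.mem_filter]
      exact ⟨hTS hx, fun h => hxC (h ▸ hc), hlt⟩
    have hcode : IsCode d (insert x C) := by
      intro y hy z hz hyz
      rw [Finset.mem_insert] at hy hz
      rcases hy with rfl | hy
      · rcases hz with rfl | hz
        · exact absurd rfl hyz
        · rw [hammingDist_comm]
          exact hfar' z hz
      · rcases hz with rfl | hz
        · exact hfar' y hy
        · exact hC.2 y hy z hz hyz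
    have := hmax (insert x C) (by
      rw [Finset.mem_filter, Finset.mem_powerset]
      exact ⟨Finset.insert_subset hx hC.1, hcode⟩)
    rw [Finset.card_insert_of_notMem hxC] at this
    omega
  have h4 : T.card * S.card ≤ C.card * (2 * e + S.card) := by
    have h5 := (Finset.card_le_card hcover).trans (Finset.card_union_le _ _)
    have h6 : (C.biUnion fun c => S.filter fun y => c ≠ y ∧ hammingDist c y < d).card ≤
        ∑ c ∈ C, deg c := by
      rw [hdeg]
      exact Finset.card_biUnion_le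
    have h7 : (∑ c ∈ C, deg c) * S.card ≤ C.card * (2 * e) := by
      rw [Finset.sum_mul, ← smul_eq_mul (a := C.card), ← Finset.sum_const]
      refine Finset.sum_le_sum fun c hc => ?_
      have := hC.1 hc
      rw [hT, Finset.mem_filter] at this
      exact this.2
    calc T.card * S.card ≤ (C.card + ∑ c ∈ C, deg c) * S.card :=
          Nat.mul_le_mul_right _ (h5.trans (Nat.add_le_add_left h6 _))
      _ = C.card * S.card + (∑ c ∈ C, deg c) * S.card := by ring
      _ ≤ C.card * S.card + C.card * (2 * e) := Nat.add_le_add_left h7 _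
      _ = _ := by ring
  have h8 : S.card ^ 2 ≤ 2 * C.card * (2 * e + S.card) := by
    calc S.card ^ 2 = S.card * S.card := by ring
      _ ≤ (2 * T.card) * S.card := Nat.mul_le_mul_right _ hhalf
      _ = 2 * (T.card * S.card) := by ring
      _ ≤ 2 * (C.card * (2 * e + S.card)) := Nat.mul_le_mul_left _ h4
      _ = _ := by ring
  exact_mod_cast h8

/-- the largest size of a code with minimum distance `d` in a set of words -/
noncomputable def A {n : ℕ} (d : ℕ) (S : Finset (Fin n → Bool)) : ℕ :=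
  sSup {k | ∃ C ⊆ S, IsCode d C ∧ C.card = k}

lemma A_bdd {n : ℕ} (d : ℕ) (S : Finset (Fin n → Bool)) :
    BddAbove {k | ∃ C ⊆ S, IsCode d C ∧ C.card = k} := by
  refine ⟨S.card, ?_⟩
  rintro k ⟨C, hC, -, rfl⟩
  exact Finset.card_le_card hC

lemma le_A {n d : ℕ} {S C : Finset (Fin n → Bool)} (h : C ⊆ S) (hC : IsCode d C) :
    C.card ≤ A d S := le_csSup (A_bdd d S) ⟨C, h, hC, rfl⟩

lemma exists_A {n : ℕ} (d : ℕ) (S : Finset (Fin n → Bool)) :
    ∃ C ⊆ S, IsCode d C ∧ C.card = A d S :=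
  Nat.sSup_mem (s := {k | ∃ C ⊆ S, IsCode d C ∧ C.card = k})
    ⟨0, ∅, Finset.empty_subset _, by intro x hx; simp at hx, rfl⟩ (A_bdd d S)

lemma card_cube' (n : ℕ) : (Fintype.card (Fin n → Bool) : ℝ) = 2 ^ n := by simp

/-- the upper bound for the codes in a random set -/
theorem rand_upper {δ ε ρ : ℝ} (h0 : 0 < δ) (h1 : δ < 1 / 2) (hε : 0 < ε) (hρ : ρ ≤ 1) :
    ∀ᶠ n : ℕ in atTop, Prob (Fin n → Bool) (Real.exp (-((1 - ρ) * Real.log 2 * n)))
      (fun S => Real.exp ((max (Real.log 2 - Real.binEntropy δ) (ρ * Real.log 2 -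
        (Real.binEntropy (1 / 2 - √(δ * (1 - δ))) + Real.binEntropy δ - Real.log 2) / 2) + ε) * n) ≤
          A ⌈δ * n⌉₊ S) ≤ Real.exp (-n) := by
  classical
  obtain ⟨η, hη⟩ : ∃ η : ℝ, η = Real.binEntropy (1 / 2 - √(δ * (1 - δ))) := ⟨_, rfl⟩
  obtain ⟨θ, hθ⟩ : ∃ θ : ℝ, θ = Real.binEntropy δ := ⟨_, rfl⟩
  obtain ⟨g, hg⟩ : ∃ g : ℝ, g = max (Real.log 2 - θ) (ρ * Real.log 2 - (η + θ - Real.log 2) / 2) :=
    ⟨_, rfl⟩
  have hcont := cont h0 h1 (half_pos hε)
  rw [← hη, ← hθ] at hcont ⊢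
  rw [← hg]
  have hθ2 : θ ≤ Real.log 2 := by
    rw [hθ]
    exact Real.binEntropy_le_log_two
  filter_upwards [hcont, tendsto_natCast_atTop_atTop.eventually_ge_atTop (6 / ε),
    ev_poly 1 hε, eventually_ge_atTop 1] with n hK hn hpoly hn1
  obtain ⟨K, hK1, hK2, hK3⟩ := hK
  have hn0 : (1 : ℝ) ≤ n := by exact_mod_cast hn1
  rw [div_le_iff₀ hε] at hn
  obtain ⟨p, hp⟩ : ∃ p : ℝ, p = Real.exp (-((1 - ρ) * Real.log 2 * n)) := ⟨_, rfl⟩
  have hp0 : 0 < p := by
    rw [hp]
    positivity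
  have hlog : 0 < Real.log 2 := Real.log_pos (by norm_num)
  have hp1 : p ≤ 1 := by
    rw [hp, Real.exp_le_one_iff]
    have : 0 ≤ (1 - ρ) * Real.log 2 * n := by
      have : 0 ≤ 1 - ρ := by linarith
      positivity
    linarith
  rw [← hp]
  obtain ⟨M, hM⟩ : ∃ M : ℕ, M = ⌈Real.exp ((g + ε) * n)⌉₊ := ⟨_, rfl⟩
  have hM1 : Real.exp ((g + ε) * n) ≤ M := by
    rw [hM]
    exact Nat.le_ceil _
  have hM0 : (0 : ℝ) < M := lt_of_lt_of_le (Real.exp_pos _) hM1
  have hM0' : 1 ≤ M := by exact_mod_cast hM0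
  have hg1 : Real.log 2 - θ ≤ g := by
    rw [hg]
    exact le_max_left _ _
  have hg2 : ρ * Real.log 2 - (η + θ - Real.log 2) / 2 ≤ g := by
    rw [hg]
    exact le_max_right _ _
  obtain ⟨B, hB⟩ : ∃ B : ℝ, B = Real.exp ((Real.log 2 - (η + θ - Real.log 2) / 2 + ε / 2) * n) :=
    ⟨_, rfl⟩
  rw [← hB] at hK2
  have hB0 : 0 < B := by
    rw [hB]
    positivity
  -- the event
  have e1 : Prob (Fin n → Bool) p (fun S => Real.exp ((g + ε) * n) ≤ A ⌈δ * n⌉₊ S) ≤
      Prob (Fin n → Bool) p (fun S => ∃ b ∈ K, ∃ T ∈ Finset.powersetCard M b, T ⊆ S) := by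
    refine Prob_mono hp0.le hp1 fun S hS => ?_
    obtain ⟨C, hCS, hC, hCA⟩ := exists_A ⌈δ * n⌉₊ S
    have hMC : M ≤ C.card := by
      rw [hM, Nat.ceil_le, hCA]
      exact hS
    obtain ⟨T, hTC, hT⟩ := Finset.exists_subset_card_eq hMC
    obtain ⟨b, hb, hCb⟩ := hK3 C hC
    exact ⟨b, hb, T, Finset.mem_powersetCard.2 ⟨hTC.trans hCb, hT⟩, hTC.trans hCS⟩
  have e2 : Prob (Fin n → Bool) p (fun S => ∃ b ∈ K, ∃ T ∈ Finset.powersetCard M b, T ⊆ S) ≤
      K.card * ((Real.exp 1 * B / M) ^ M * p ^ M) := by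
    refine (Prob_exists hp0.le hp1 K _).trans ?_
    rw [← nsmul_eq_mul, ← Finset.sum_const]
    refine Finset.sum_le_sum fun b hb => ?_
    refine (Prob_exists hp0.le hp1 (Finset.powersetCard M b) (fun T S => T ⊆ S)).trans ?_
    calc ∑ T ∈ Finset.powersetCard M b, Prob (Fin n → Bool) p (fun S => T ⊆ S)
        = ∑ T ∈ Finset.powersetCard M b, p ^ M := by
          refine Finset.sum_congr rfl fun T hT => ?_
          rw [Prob_superset, (Finset.mem_powersetCard.1 hT).2]
      _ = (b.card.choose M : ℝ) * p ^ M := by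
          rw [Finset.sum_const, Finset.card_powersetCard, nsmul_eq_mul]
      _ ≤ _ := mul_le_mul_of_nonneg_right (choose_upper _ _ hM0' _ (hK2 b hb)) (by positivity)
  have e3 : (K.card : ℝ) ≤ (Real.exp 1) ^ M := by
    refine hK1.trans ?_
    rw [← Real.exp_nat_mul, mul_one]
    apply Real.exp_le_exp.2
    refine le_trans ?_ hM1
    apply Real.exp_le_exp.2
    apply mul_le_mul_of_nonneg_right _ (by linarith)
    linarith
  have e4 : Real.exp 1 * (Real.exp 1 * B / M) * p ≤ Real.exp (-1) := by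
    have e5 : Real.exp 1 * (Real.exp 1 * B / M) * p = Real.exp 1 * Real.exp 1 * B * p / M := by
      ring
    rw [e5, div_le_iff₀ hM0]
    calc Real.exp 1 * Real.exp 1 * B * p
        = Real.exp (1 + 1 + (Real.log 2 - (η + θ - Real.log 2) / 2 + ε / 2) * n +
            -((1 - ρ) * Real.log 2 * n)) := by
          rw [hB, hp, ← Real.exp_add, ← Real.exp_add, ← Real.exp_add]
      _ ≤ Real.exp (-1 + (g + ε) * n) := by
          apply Real.exp_le_exp.2
          have e6 : (ρ * Real.log 2 - (η + θ - Real.log 2) / 2) * n ≤ g * n :=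
            mul_le_mul_of_nonneg_right hg2 (by linarith)
          nlinarith
      _ = Real.exp (-1) * Real.exp ((g + ε) * n) := by rw [Real.exp_add]
      _ ≤ _ := mul_le_mul_of_nonneg_left hM1 (Real.exp_pos _).le
  have e7 : (n : ℝ) ≤ M := by
    refine le_trans ?_ hM1
    calc (n : ℝ) ≤ 1 * ((n : ℝ) + 1) ^ 3 := by nlinarith [sq_nonneg (n : ℝ)]
      _ ≤ Real.exp (ε * n) := hpoly
      _ ≤ _ := by
          apply Real.exp_le_exp.2
          apply mul_le_mul_of_nonneg_right _ (by linarith)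
          linarith
  calc Prob (Fin n → Bool) p (fun S => Real.exp ((g + ε) * n) ≤ A ⌈δ * n⌉₊ S)
      ≤ K.card * ((Real.exp 1 * B / M) ^ M * p ^ M) := e1.trans e2
    _ ≤ (Real.exp 1) ^ M * ((Real.exp 1 * B / M) ^ M * p ^ M) :=
        mul_le_mul_of_nonneg_right e3 (by positivity)
    _ = (Real.exp 1 * (Real.exp 1 * B / M) * p) ^ M := by rw [mul_pow, mul_pow, mul_assoc]
    _ ≤ (Real.exp (-1)) ^ M := pow_le_pow_left₀ (by positivity) e4 M
    _ = Real.exp (-M) := by
        rw [← Real.exp_nat_mul]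
        congr 1
        ring
    _ ≤ Real.exp (-n) := Real.exp_le_exp.2 (by linarith)

/-- a random set is not too large -/
theorem rand_size {δ ε ρ : ℝ} (hε : 0 < ε) (hρ : ρ ≤ 1) (n : ℕ) :
    Prob (Fin n → Bool) (Real.exp (-((1 - ρ) * Real.log 2 * n)))
      (fun S => Real.exp ((ρ * Real.log 2 + ε) * n) ≤ A ⌈δ * n⌉₊ S) ≤ Real.exp (-(ε * n)) := by
  classical
  obtain ⟨p, hp⟩ : ∃ p : ℝ, p = Real.exp (-((1 - ρ) * Real.log 2 * n)) := ⟨_, rfl⟩
  have hp0 : 0 < p := by
    rw [hp]
    positivity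
  have hlog : 0 < Real.log 2 := Real.log_pos (by norm_num)
  have hp1 : p ≤ 1 := by
    rw [hp, Real.exp_le_one_iff]
    have : 0 ≤ (1 - ρ) * Real.log 2 * n := by
      have : 0 ≤ 1 - ρ := by linarith
      positivity
    linarith
  rw [← hp]
  have h1 := markov hp0.le hp1 (univ : Finset (Fin n → Bool)) (fun x => {x})
    (Real.exp ((ρ * Real.log 2 + ε) * n)) (Real.exp_pos _)
  refine (Prob_mono hp0.le hp1 fun S hS => ?_).trans (h1.trans ?_)
  · obtain ⟨C, hCS, hC, hCA⟩ := exists_A ⌈δ * n⌉₊ S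
    have e1 : (univ.filter fun x : Fin n → Bool => ({x} : Finset (Fin n → Bool)) ⊆ S) = S := by
      ext x
      simp
    rw [e1]
    refine hS.trans ?_
    rw [← hCA]
    exact_mod_cast Finset.card_le_card hCS
  · rw [div_le_iff₀ (Real.exp_pos _)]
    simp only [Finset.card_singleton, pow_one, Finset.sum_const, nsmul_eq_mul]
    rw [card_cube, hp]
    have e3 : (2 : ℝ) ^ n = Real.exp (Real.log 2 * n) := by
      rw [mul_comm, Real.exp_nat_mul, Real.exp_log (by norm_num)]
    rw [e3, ← Real.exp_add, ← Real.exp_add]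
    apply Real.exp_le_exp.2
    linarith

/-- a random set contains a large code -/
theorem rand_lower {δ ε ρ : ℝ} (h0 : 0 < δ) (h1 : δ < 1 / 2) (hε : 0 < ε) (hρ0 : 0 < ρ)
    (hρ : ρ ≤ 1) :
    ∀ᶠ n : ℕ in atTop, Prob (Fin n → Bool) (Real.exp (-((1 - ρ) * Real.log 2 * n)))
      (fun S => (A ⌈δ * n⌉₊ S : ℝ) <
        Real.exp ((min (Real.log 2 - Real.binEntropy δ) (ρ * Real.log 2) - ε) * n)) ≤
        4 * Real.exp (-(ρ * Real.log 2 * n)) + 1 / n := by
  classical
  obtain ⟨θ, hθ⟩ : ∃ θ : ℝ, θ = Real.binEntropy δ := ⟨_, rfl⟩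
  rw [← hθ]
  have hlog : 0 < Real.log 2 := Real.log_pos (by norm_num)
  filter_upwards [ev_poly 32 hε, eventually_ge_atTop 1] with n hpoly hn1
  have hn0 : (1 : ℝ) ≤ n := by exact_mod_cast hn1
  obtain ⟨p, hp⟩ : ∃ p : ℝ, p = Real.exp (-((1 - ρ) * Real.log 2 * n)) := ⟨_, rfl⟩
  have hp0 : 0 < p := by
    rw [hp]
    positivity
  have hp1 : p ≤ 1 := by
    rw [hp, Real.exp_le_one_iff]
    have : 0 ≤ (1 - ρ) * Real.log 2 * n := by
      have : 0 ≤ 1 - ρ := by linarith
      positivity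
    linarith
  rw [← hp]
  have e3 : (2 : ℝ) ^ n = Real.exp (Real.log 2 * n) := by
    rw [mul_comm, Real.exp_nat_mul, Real.exp_log (by norm_num)]
  have hpN : p * 2 ^ n = Real.exp (ρ * Real.log 2 * n) := by
    rw [hp, e3, ← Real.exp_add]
    congr 1
    ring
  obtain ⟨d, hd⟩ : ∃ d : ℕ, d = ⌈δ * n⌉₊ := ⟨_, rfl⟩
  obtain ⟨V, hV⟩ : ∃ V : ℝ, V = LS.vol n d := ⟨_, rfl⟩
  have hd1 : 1 ≤ d := by
    rw [hd, Nat.one_le_ceil_iff]
    positivity
  have hV1 : 1 ≤ V := by
    rw [hV]
    unfold LS.vol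
    have := Finset.single_le_sum (f := fun w => (n.choose w : ℝ)) (s := range d)
      (fun w _ => Nat.cast_nonneg _) (Finset.mem_range.2 hd1 : 0 ∈ range d)
    simpa using this
  have hV2 : V ≤ Real.exp (n * θ) := by
    rw [hV, hd, hθ]
    exact vol_bound h0 h1 n hn1
  rw [← hd]
  -- the pairs
  obtain ⟨P, hP⟩ : ∃ P : Finset ((Fin n → Bool) × (Fin n → Bool)), P =
    univ.filter fun z => z.1 ≠ z.2 ∧ hammingDist z.1 z.2 < d := ⟨_, rfl⟩
  have hPc : (P.card : ℝ) ≤ 2 ^ n * V := by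
    have e1 : P ⊆ (univ : Finset (Fin n → Bool)).biUnion fun x =>
        (univ.filter fun y : Fin n → Bool => hammingDist x y < d).image fun y => (x, y) := by
      intro z hz
      rw [hP, Finset.mem_filter] at hz
      rw [Finset.mem_biUnion]
      refine ⟨z.1, Finset.mem_univ _, Finset.mem_image.2 ⟨z.2, ?_, rfl⟩⟩
      exact Finset.mem_filter.2 ⟨Finset.mem_univ _, hz.2.2⟩
    have e2 := (Finset.card_le_card e1).trans Finset.card_biUnion_le
    calc (P.card : ℝ) ≤ ((∑ x : Fin n → Bool, ((univ.filter fun y : Fin n → Bool =>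
          hammingDist x y < d).image fun y => (x, y)).card : ℕ) : ℝ) := by exact_mod_cast e2
      _ ≤ ∑ _x : Fin n → Bool, V := by
          push_cast
          refine Finset.sum_le_sum fun x _ => ?_
          rw [hV]
          refine le_trans ?_ (ball_card n d x)
          exact_mod_cast Finset.card_image_le
      _ = 2 ^ n * V := by
          rw [Finset.sum_const, nsmul_eq_mul, card_cube]
  obtain ⟨t, ht⟩ : ∃ t : ℝ, t = n * (2 ^ n * V) * p ^ 2 := ⟨_, rfl⟩
  have ht0 : 0 < t := by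
    rw [ht]
    positivity
  have hm := markov hp0.le hp1 P (fun z => {z.1, z.2}) t ht0
  have hm2 : (∑ z ∈ P, p ^ ({z.1, z.2} : Finset (Fin n → Bool)).card) / t ≤ 1 / n := by
    have e1 : ∑ z ∈ P, p ^ ({z.1, z.2} : Finset (Fin n → Bool)).card = P.card * p ^ 2 := by
      rw [← nsmul_eq_mul, ← Finset.sum_const]
      refine Finset.sum_congr rfl fun z hz => ?_
      rw [hP, Finset.mem_filter] at hz
      rw [Finset.card_pair hz.2.1]
    rw [e1, div_le_div_iff₀ ht0 (by linarith), ht]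
    have : (P.card : ℝ) * p ^ 2 ≤ 2 ^ n * V * p ^ 2 :=
      mul_le_mul_of_nonneg_right hPc (by positivity)
    nlinarith
  have hs := small hp0 hp1 (X := Fin n → Bool) (by simp)
  rw [card_cube', hpN] at hs
  have hs2 : (4 : ℝ) / Real.exp (ρ * Real.log 2 * n) = 4 * Real.exp (-(ρ * Real.log 2 * n)) := by
    rw [Real.exp_neg, div_eq_mul_inv]
  rw [hs2] at hs
  refine le_trans ?_ (add_le_add hs (hm.trans hm2))
  refine le_trans ?_ (Prob_or hp0.le hp1 _ _)
  refine Prob_mono hp0.le hp1 fun S hS => ?_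
  by_contra hcon
  push Not at hcon
  obtain ⟨c1, c2⟩ := hcon
  obtain ⟨C, hCS, hC, hCe⟩ := dense_code d S
  have hCA : (C.card : ℝ) ≤ A d S := by exact_mod_cast le_A hCS hC
  have e5 : (((S ×ˢ S).filter fun z => z.1 ≠ z.2 ∧ hammingDist z.1 z.2 < d).card : ℝ) ≤ t := by
    refine le_trans ?_ c2.le
    have : ((S ×ˢ S).filter fun z => z.1 ≠ z.2 ∧ hammingDist z.1 z.2 < d) ⊆
        P.filter fun z => ({z.1, z.2} : Finset (Fin n → Bool)) ⊆ S := by
      intro z hz
      rw [Finset.mem_filter, Finset.mem_product] at hz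
      rw [Finset.mem_filter, hP, Finset.mem_filter]
      refine ⟨⟨Finset.mem_univ _, hz.2⟩, ?_⟩
      intro w hw
      rw [Finset.mem_insert, Finset.mem_singleton] at hw
      rcases hw with rfl | rfl
      · exact hz.1.1
      · exact hz.1.2
    exact_mod_cast Finset.card_le_card this
  obtain ⟨s, hs'⟩ : ∃ s : ℝ, s = Real.exp (ρ * Real.log 2 * n) / 2 := ⟨_, rfl⟩
  rw [← hs'] at c1
  have hs0 : 0 < s := by
    rw [hs']
    positivity
  have hC0 : (0 : ℝ) ≤ C.card := Nat.cast_nonneg _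
  have hS0 : (0 : ℝ) < S.card := by linarith
  -- the code is large
  have e6 : (S.card : ℝ) ^ 2 ≤ 2 * C.card * (2 * t + S.card) := by
    refine hCe.trans ?_
    apply mul_le_mul_of_nonneg_left _ (by positivity)
    linarith
  obtain ⟨m, hm'⟩ : ∃ m : ℝ, m = min (Real.log 2 - θ) (ρ * Real.log 2) := ⟨_, rfl⟩
  rw [← hm'] at hS
  have hm3 : m ≤ Real.log 2 - θ := by
    rw [hm']
    exact min_le_left _ _
  have hm4 : m ≤ ρ * Real.log 2 := by
    rw [hm']
    exact min_le_right _ _
  obtain ⟨y, hy⟩ : ∃ y : ℝ, y = Real.exp ((m - ε) * n) := ⟨_, rfl⟩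
  rw [← hy] at hS
  have hy0 : 0 < y := by
    rw [hy]
    positivity
  have hCy : (C.card : ℝ) < y := lt_of_le_of_lt hCA hS
  -- bounds for `y`
  have e7 : 32 * y ≤ Real.exp (ρ * Real.log 2 * n) := by
    have e8 : (32 : ℝ) ≤ Real.exp (ε * n) := by
      refine le_trans ?_ hpoly
      have : (1 : ℝ) ≤ ((n : ℝ) + 1) ^ 3 := by
        apply one_le_pow₀
        linarith
      linarith
    calc 32 * y ≤ Real.exp (ε * n) * y := mul_le_mul_of_nonneg_right e8 hy0.le
      _ = Real.exp (m * n) := by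
          rw [hy, ← Real.exp_add]
          congr 1
          ring
      _ ≤ _ := by
          apply Real.exp_le_exp.2
          apply mul_le_mul_of_nonneg_right hm4 (by linarith)
  have e9 : 32 * n * V * y ≤ 2 ^ n := by
    have e8 : (32 : ℝ) * n ≤ Real.exp (ε * n) := by
      refine le_trans ?_ hpoly
      have : (n : ℝ) ≤ ((n : ℝ) + 1) ^ 3 := by
        nlinarith [sq_nonneg (n : ℝ)]
      linarith
    calc 32 * n * V * y ≤ Real.exp (ε * n) * Real.exp (n * θ) * y := by
          apply mul_le_mul_of_nonneg_right _ hy0.le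
          exact mul_le_mul e8 hV2 (by linarith) (Real.exp_pos _).le
      _ = Real.exp ((m + θ) * n) := by
          rw [hy, ← Real.exp_add, ← Real.exp_add]
          congr 1
          ring
      _ ≤ 2 ^ n := by
          rw [e3]
          apply Real.exp_le_exp.2
          apply mul_le_mul_of_nonneg_right _ (by linarith)
          linarith
  -- `2 t y ≤ s² / 4`
  have e10 : 8 * t * y ≤ s ^ 2 := by
    have e11 : s ^ 2 = (p * 2 ^ n) ^ 2 / 4 := by
      rw [hs', hpN]
      ring
    rw [e11, ht]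
    have e12 : 8 * (n * (2 ^ n * V) * p ^ 2) * y = (32 * n * V * y) * (2 ^ n * p ^ 2) / 4 := by
      ring
    rw [e12]
    apply div_le_div_of_nonneg_right _ (by norm_num)
    calc 32 * n * V * y * (2 ^ n * p ^ 2) ≤ 2 ^ n * (2 ^ n * p ^ 2) :=
          mul_le_mul_of_nonneg_right e9 (by positivity)
      _ = _ := by ring
  have e13 : 4 * y ≤ s := by
    rw [hs']
    linarith
  -- contradiction
  have e14 : 2 * (C.card : ℝ) * (2 * t + S.card) < 2 * y * (2 * t + S.card) :=
    mul_lt_mul_of_pos_right (by linarith) (by positivity)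
  have e15 : 2 * y * (2 * t + S.card) ≤ (S.card : ℝ) ^ 2 := by
    nlinarith [mul_le_mul c1 c1 hs0.le hS0.le, mul_le_mul_of_nonneg_right (e13.trans c1) hS0.le]
  linarith

end Pool.Agent.H384.CC
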