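import Mathlib
import Pool.Agent.H384.CC.Sub

/-!
MP_0430e4_lc (helper384): the random set meets a given set in the expected number of points.
-/

set_option autoImplicit false

namespace Pool.Agent.H384.CC

open Finset

variable {X : Type} [Fintype X] [DecidableEq X] {p : ℝ}

/-- the intersection with a given set is seldom small -/
lemma small_inter (h0 : 0 < p) (h1 : p ≤ 1) (C : Finset X) (hC : 0 < C.card) :
    Prob X p (fun S => ((S ∩ C).card : ℝ) < p * C.card / 2) ≤ 4 / (p * C.card) := by
  classical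
  obtain ⟨N, hN⟩ : ∃ N : ℝ, N = C.card := ⟨_, rfl⟩
  have hN0 : 0 < N := by
    rw [hN]
    exact_mod_cast hC
  rw [← hN]
  obtain ⟨w, hw⟩ : ∃ w : Finset X → ℝ, w = fun S => p ^ S.card * (1 - p) ^ (Fintype.card X - S.card) :=
    ⟨_, rfl⟩
  have hw0 : ∀ S, 0 ≤ w S := by
    intro S
    rw [hw]
    exact wt_nonneg h0.le h1 S
  have hsup : ∀ T : Finset X, ∑ S, (if T ⊆ S then w S else 0) = p ^ T.card := by
    intro T
    rw [← Prob_superset (p := p) T]
    unfold Prob
    refine Finset.sum_congr rfl fun S _ => ?_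
    rw [hw]
    by_cases h : T ⊆ S <;> simp [h]
  -- the moments
  have m0 : ∑ S, w S = 1 := by
    have := hsup ∅
    simpa using this
  have hcard : ∀ S : Finset X, ((S ∩ C).card : ℝ) = ∑ x ∈ C, (if x ∈ S then (1 : ℝ) else 0) := by
    intro S
    rw [Finset.inter_comm, ← Finset.filter_mem_eq_inter, Finset.card_filter]
    push_cast
    rfl
  have m1 : ∑ S : Finset X, ((S ∩ C).card : ℝ) * w S = p * N := by
    have e1 : ∀ S : Finset X, ((S ∩ C).card : ℝ) * w S =
        ∑ x ∈ C, (if ({x} : Finset X) ⊆ S then w S else 0) := by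
      intro S
      rw [hcard, Finset.sum_mul]
      refine Finset.sum_congr rfl fun x _ => ?_
      simp
    simp_rw [e1]
    rw [Finset.sum_comm]
    simp_rw [hsup]
    simp only [Finset.card_singleton, pow_one, Finset.sum_const, nsmul_eq_mul]
    rw [hN]
    ring
  have m2 : ∑ S : Finset X, ((S ∩ C).card : ℝ) ^ 2 * w S ≤ p ^ 2 * N ^ 2 + p * N := by
    have e1 : ∀ S : Finset X, ((S ∩ C).card : ℝ) ^ 2 * w S =
        ∑ x ∈ C, ∑ y ∈ C, (if ({x, y} : Finset X) ⊆ S then w S else 0) := by
      intro S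
      rw [pow_two, hcard, Finset.sum_mul_sum, Finset.sum_mul]
      refine Finset.sum_congr rfl fun x _ => ?_
      rw [Finset.sum_mul]
      refine Finset.sum_congr rfl fun y _ => ?_
      by_cases hx : x ∈ S <;> by_cases hy : y ∈ S <;>
        simp [hx, hy, Finset.insert_subset_iff]
    simp_rw [e1]
    rw [Finset.sum_comm]
    have e2 : ∀ x ∈ C, ∑ S : Finset X, ∑ y ∈ C, (if ({x, y} : Finset X) ⊆ S then w S else 0) ≤
        p ^ 2 * N + p := by
      intro x hx
      rw [Finset.sum_comm]
      simp_rw [hsup]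
      rw [← Finset.add_sum_erase C _ hx]
      have e3 : ∑ y ∈ C.erase x, p ^ ({x, y} : Finset X).card = ∑ y ∈ C.erase x, p ^ 2 := by
        refine Finset.sum_congr rfl fun y hy => ?_
        rw [Finset.card_pair (Finset.ne_of_mem_erase hy).symm]
      rw [e3, Finset.sum_const, Finset.card_erase_of_mem hx, nsmul_eq_mul]
      have e4 : ((C.card - 1 : ℕ) : ℝ) ≤ N := by
        rw [hN]
        exact_mod_cast Nat.sub_le _ _
      have e5 : p ^ ({x, x} : Finset X).card = p := by simp
      rw [e5]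
      have : 0 ≤ p ^ 2 := by positivity
      nlinarith
    calc ∑ x ∈ C, ∑ S : Finset X, ∑ y ∈ C, (if ({x, y} : Finset X) ⊆ S then w S else 0)
        ≤ ∑ _x ∈ C, (p ^ 2 * N + p) := Finset.sum_le_sum fun x hx => e2 x hx
      _ = N * (p ^ 2 * N + p) := by
          rw [Finset.sum_const, nsmul_eq_mul, hN]
      _ = _ := by ring
  have var : ∑ S : Finset X, (((S ∩ C).card : ℝ) - p * N) ^ 2 * w S ≤ p * N := by
    have e1 : ∀ S : Finset X, (((S ∩ C).card : ℝ) - p * N) ^ 2 * w S =
        ((S ∩ C).card : ℝ) ^ 2 * w S - 2 * (p * N) * (((S ∩ C).card : ℝ) * w S) +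
          (p * N) ^ 2 * w S := by
      intro S
      ring
    simp_rw [e1]
    rw [Finset.sum_add_distrib, Finset.sum_sub_distrib, ← Finset.mul_sum, ← Finset.mul_sum, m0, m1]
    nlinarith
  rw [le_div_iff₀ (by positivity)]
  have h2 : Prob X p (fun S => ((S ∩ C).card : ℝ) < p * N / 2) * (p * N / 2) ^ 2 ≤ p * N := by
    refine le_trans ?_ var
    unfold Prob
    rw [Finset.sum_mul]
    refine Finset.sum_le_sum fun S _ => ?_
    have h3 := hw0 S
    split_ifs with h
    · have h4 : (p * N / 2) ^ 2 ≤ (((S ∩ C).card : ℝ) - p * N) ^ 2 := by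
        have : 0 ≤ p * N := by positivity
        nlinarith
      have h5 : p ^ S.card * (1 - p) ^ (Fintype.card X - S.card) = w S := by rw [hw]
      rw [h5, mul_comm]
      exact mul_le_mul_of_nonneg_right h4 h3
    · rw [zero_mul]
      exact mul_nonneg (sq_nonneg _) h3
  have hpN : 0 < p * N := by positivity
  have h3 : Prob X p (fun S => ((S ∩ C).card : ℝ) < p * N / 2) * (p * N) * (p * N) ≤ 4 * (p * N) := by
    nlinarith
  exact le_of_mul_le_mul_right h3 hpN

/-- a code of the cube gives a code in the random set -/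
lemma thin {n : ℕ} (d : ℕ) (h0 : 0 < p) (h1 : p ≤ 1) (hA : 0 < A d (univ : Finset (Fin n → Bool))) :
    Prob (Fin n → Bool) p (fun S => (A d S : ℝ) < p * A d (univ : Finset (Fin n → Bool)) / 2) ≤
      4 / (p * A d (univ : Finset (Fin n → Bool))) := by
  classical
  obtain ⟨C, -, hC, hCA⟩ := exists_A d (univ : Finset (Fin n → Bool))
  have h := small_inter h0 h1 C (hCA ▸ hA)
  rw [hCA] at h
  refine (Prob_mono h0.le h1 fun S hS => ?_).trans h
  refine lt_of_le_of_lt ?_ hS
  have : IsCode d (S ∩ C) := fun x hx y hy hxy =>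
    hC x (Finset.mem_of_mem_inter_right hx) y (Finset.mem_of_mem_inter_right hy) hxy
  exact_mod_cast le_A Finset.inter_subset_left this

end Pool.Agent.H384.CC
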